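import Pool.Agent.J4H50.YO.Fin
import Pool.Agent.J4H45.YO.Nfe
import Pool.Agent.J4H19.YO.Rn
import Pool.Agent.J4H19.YO.Un
import Pool.Agent.J4H28.YO.Pt
import Pool.Agent.J4H28.YO.Ne
import Pool.Agent.J4H28.YO.Sw
import Pool.Agent.J4H74.YO.Cn
import Pool.Agent.J4H74.YO.Rg
import Pool.Agent.J4H73.YO.Pu
import Pool.Agent.J4H73.YO.Su
import Pool.Agent.J4H73.YO.Lm

set_option autoImplicit false

/-! # The monodromy conjecture for germs with a given tangent cone: assembly -/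

namespace Pool.Agent.J4H50.YO

open Pool.Agent.Y229.PS (IsFormalBFunction)

theorem p_UN : S_UN := Pool.Agent.J4H19.YO.t_UN Pool.Agent.J4H28.YO.t_PT

theorem p_CN : S_CN :=
  Pool.Agent.J4H74.YO.t_CN Pool.Agent.J4H73.YO.t_LM p_UN Pool.Agent.J4H73.YO.t_PU

theorem p_CO : S_CO := Pool.Agent.J4H19.YO.t_CO p_UN Pool.Agent.J4H73.YO.t_PU

theorem p_CU : S_CU := t_CU Pool.Agent.J4H19.YO.t_RN

/-- **The properties of the zeta functions of the class.** -/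
theorem tcg_good' {σ : Type} {f : MvPowerSeries σ ℂ} {Z : ℕ → RatFunc ℂ} (h : TCG σ f Z) :
    GoodY f Z :=
  tcg_good p_CU Pool.Agent.J4H28.YO.t_SW Pool.Agent.J4H74.YO.t_SZ Pool.Agent.J4H73.YO.t_SU
    Pool.Agent.J4H28.YO.t_NE p_CN Pool.Agent.J4H74.YO.t_RG Pool.Agent.J4H19.YO.t_RN p_CO h

/-- **The local theorem.** -/
theorem tcg_local' {N : ℕ} (f : MvPowerSeries (Fin N) ℂ) (Z : ℕ → RatFunc ℂ)
    (hZ : TCG (Fin N) f Z) (b : Polynomial ℂ) (hb : IsFormalBFunction f b) (e : ℕ) (he : 1 ≤ e)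
    (s : ℂ) (hs : (Z e).denom.eval s = 0) : b.eval s = 0 :=
  tcg_local Pool.Agent.J4H45.YO.t_NFE p_CU Pool.Agent.J4H28.YO.t_SW Pool.Agent.J4H74.YO.t_SZ
    Pool.Agent.J4H73.YO.t_SU Pool.Agent.J4H28.YO.t_NE p_CN Pool.Agent.J4H74.YO.t_RG
    Pool.Agent.J4H19.YO.t_RN p_CO f Z hZ b hb e he s hs

end Pool.Agent.J4H50.YO
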