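import Pool.Agent.J4H50.TF.Defs

set_option autoImplicit false

/-! # Germs with a given tangent cone -/

namespace Pool.Agent.J4H50.YO

open Pool.Agent.W574.SM Pool.Agent.N103 Pool.Agent.N103.V Pool.Agent.Y229
open Pool.Agent.J4H50.TT Pool.Agent.J4H50.TF

/-- all the terms of the power series have degree at least two -/
def Sing {σ : Type} (f : MvPowerSeries σ ℂ) : Prop :=
  ∀ x : σ →₀ ℕ, x.degree ≤ 1 → MvPowerSeries.coeff x f = 0

/-- A de Rham functional: `α k q` is the value at the differential form `q F ^ (s - k) dx`. The functional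
vanishes on the exact forms (`clo`), and is continuous (`cts`). -/
structure DR {σ : Type} (s : ℂ) (F : MvPowerSeries σ ℂ) (α : ℕ → MvPowerSeries σ ℂ →ₗ[ℂ] ℂ) :
    Prop where
  cts : ∀ k, ∃ N : ℕ, ∀ q : MvPowerSeries σ ℂ,
    (∀ x : σ →₀ ℕ, x.degree < N → MvPowerSeries.coeff x q = 0) → α k q = 0
  sft : ∀ k q, α (k + 1) (F * q) = α k q
  clo : ∀ k i q, α k (MvPowerSeries.pderiv ℂ i q) +
    (s - k) * α (k + 1) (MvPowerSeries.pderiv ℂ i F * q) = 0

/-- There is a de Rham functional whose value at `q F ^ s dx` is `q(0)`. -/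
def NV {σ : Type} (F : MvPowerSeries σ ℂ) (s : ℂ) : Prop :=
  ∃ α, DR s F α ∧ ∀ q, α 0 q = MvPowerSeries.constantCoeff q

section Plane

variable {R : Type} [CommRing R]

/-- `RedZeta Φ ℓ h a₀ n₀ a₁ n₁ Z`: the origin of the plane, with the coordinates `u = X 0` and
`v = X 1`, is a point of a partial resolution, near which the polynomial is `u ^ a₀ v ^ a₁ h`, and the
canonical divisor is `(n₀ - 1) [u = 0] + (n₁ - 1) [v = 0]`. (So `(a_i, n_i)` are the numerical data
`(N_E, ν_E)` of the exceptional curve `u = 0` resp. `v = 0`, and `(a_i, n_i) = (0, 1)` if there is no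
exceptional curve.) `Z` is the contribution of the origin to the zeta function: the sum
`∑_I [E_I° ∩ π⁻¹(0)] ∏_{i ∈ I} Φ(N_i, ν_i)` over the strata of a log resolution `π`, where `Φ(N, ν)` is
the local factor of a divisor with the numerical data `(N, ν)`, and `[·]` is the class (or the Euler
characteristic), `ℓ` being the class of the affine line. The rules are

* `unit`: `h` does not vanish at the origin;
* `curveV`, `curveU`: near the origin `h = 0` is a smooth curve, transversal to the exceptional curve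
  `u = 0` (resp. `v = 0`), the only one through the origin (if any);
* `blowup`: the origin of the plane is blown up. The number `m` is the multiplicity of `h`, the new
  exceptional curve `E` has `N_E = a₀ + a₁ + m` and `ν_E = n₀ + n₁`, and `hc c` and `hI` are the
  transforms at the points of `E` (the directions `v = c u` and `u = 0`). At the points `c ∉ S` the
  transform of `h` is a unit; the set of these points has the class `ℓ - |S|`. -/
inductive RedZeta (Φ : ℕ → ℕ → R) (ℓ : R) :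
    MvPolynomial (Fin 2) ℂ → ℕ → ℕ → ℕ → ℕ → R → Prop
  | unit (h : MvPolynomial (Fin 2) ℂ) (a₀ n₀ a₁ n₁ : ℕ) (hh : MvPolynomial.constantCoeff h ≠ 0) :
      RedZeta Φ ℓ h a₀ n₀ a₁ n₁ (Φ a₀ n₀ * Φ a₁ n₁)
  | curveV (h : MvPolynomial (Fin 2) ℂ) (a₀ n₀ : ℕ) (h0 : MvPolynomial.constantCoeff h = 0)
      (h1 : MvPolynomial.constantCoeff (MvPolynomial.pderiv 1 h) ≠ 0) :
      RedZeta Φ ℓ h a₀ n₀ 0 1 (Φ a₀ n₀ * Φ 1 1)
  | curveU (h : MvPolynomial (Fin 2) ℂ) (a₁ n₁ : ℕ) (h0 : MvPolynomial.constantCoeff h = 0)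
      (h1 : MvPolynomial.constantCoeff (MvPolynomial.pderiv 0 h) ≠ 0) :
      RedZeta Φ ℓ h 0 1 a₁ n₁ (Φ a₁ n₁ * Φ 1 1)
  | blowup (h : MvPolynomial (Fin 2) ℂ) (a₀ n₀ a₁ n₁ m : ℕ) (hm : 1 ≤ m)
      (hc : ℂ → MvPolynomial (Fin 2) ℂ) (hI : MvPolynomial (Fin 2) ℂ)
      (hhc : ∀ c, MvPolynomial.aeval (chart c) h = MvPolynomial.X 0 ^ m * hc c)
      (hhI : MvPolynomial.aeval chartI h = MvPolynomial.X 1 ^ m * hI)
      (S : Finset ℂ) (h0S : 0 ∈ S)
      (hS : ∀ c ∉ S, MvPolynomial.constantCoeff (hc c) ≠ 0)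
      (Zc : ℂ → R) (ZI : R)
      (h0 : RedZeta Φ ℓ (hc 0) (a₀ + a₁ + m) (n₀ + n₁) a₁ n₁ (Zc 0))
      (hcS : ∀ c ∈ S, c ≠ 0 → RedZeta Φ ℓ (hc c) (a₀ + a₁ + m) (n₀ + n₁) 0 1 (Zc c))
      (hZI : RedZeta Φ ℓ hI a₀ n₀ (a₀ + a₁ + m) (n₀ + n₁) ZI) :
      RedZeta Φ ℓ h a₀ n₀ a₁ n₁ (ZI + ∑ c ∈ S, Zc c +
        (ℓ - (S.card : R)) * Φ (a₀ + a₁ + m) (n₀ + n₁))

end Plane

section Cone

/-- the number `ord (x, y)` for `(x, y)` in `(ℚ/ℤ)²` -/
def ordQ (x y : ℚ) : ℕ := Nat.lcm x.den y.den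

/-- The contribution `W_e(s)` of a singular point `P` of the tangent cone `f_d = 0` of a germ `f` in `n`
variables. Near `P` the blowing up of the origin has coordinates `(z, y)` such that `z = 0` is the
exceptional divisor, and `f = z ^ d (g(y) + z ^ k)` up to a unit; the `Z_c` are the twisted local zeta
functions of `g`, and `W_1 = ((s + 1) Z_1 - 1) / s`, `W_c = Z_c` for `c ≥ 2` (`WW`). With
`S = (n + (d + k) s) / k` this is

`W_e(S) / (n + d s)` (if `e ∣ d`) `- (1 / k) ∑_h W_{ord h}(S)`,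

where `h` runs over the elements of `(ℚ/ℤ)²` with `k h = ((d + k) / e, 0)`; these are the
`((d + k) / (e k) + i / k, j / k)`, `0 ≤ i, j < k`. -/
noncomputable def ptW (n d k : ℕ) (Z : ℕ → RatFunc ℂ) (e : ℕ) : RatFunc ℂ :=
  (if e ∣ d then sb (((d + k : ℕ) : ℂ) / k) ((n : ℂ) / k) (WW Z e) /
      ((n : RatFunc ℂ) + (d : RatFunc ℂ) * RatFunc.X) else 0) -
    1 / (k : RatFunc ℂ) * ∑ i ∈ Finset.range k, ∑ j ∈ Finset.range k,
      sb (((d + k : ℕ) : ℂ) / k) ((n : ℂ) / k)
        (WW Z (ordQ (((d + k : ℕ) : ℚ) / (e * k) + (i : ℚ) / k) ((j : ℚ) / k)))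

/-- The functions `W_e` of a germ with a given tangent cone `f_d = 0` (of degree `d`, in `n` variables):
`W_e = A / (n + d s)` (if `e ∣ d`) `- d / (n + d s)` (if `e = 1`) `+ ∑_P W_{e, P}`, where `A` is the
Euler characteristic of the complement of the tangent cone in the projective space, and `P` runs over
the singular points of the tangent cone. -/
noncomputable def coneW {ι : Type} [Fintype ι] (n d : ℕ) (A : ℤ) (k : ι → ℕ)
    (Z : ι → ℕ → RatFunc ℂ) (e : ℕ) : RatFunc ℂ :=
  ((if e ∣ d then (A : RatFunc ℂ) else 0) - (if e = 1 then (d : RatFunc ℂ) else 0)) /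
      ((n : RatFunc ℂ) + (d : RatFunc ℂ) * RatFunc.X) + ∑ i, ptW n d (k i) (Z i) e

/-- The zeta functions with the given functions `W_e`: `Z_1 = (1 + s W_1) / (s + 1)`, and `Z_e = W_e` for
`e ≥ 2`. -/
noncomputable def ofW (W : ℕ → RatFunc ℂ) (e : ℕ) : RatFunc ℂ :=
  if e = 1 then (1 + RatFunc.X * W 1) / (RatFunc.X + 1) else W e

/-- The differential form `F ^ s dx_1 ∧ ⋯ ∧ dx_n` on the complement of `F = 0` is not exact: it is not a
sum of forms `∂_i (η_i F ^ (s - m)) dx_1 ∧ ⋯ ∧ dx_n` with polynomials `η_i`. -/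
def NonExact {σ : Type} [Fintype σ] (F : MvPolynomial σ ℂ) (s : ℂ) : Prop :=
  ∀ (m : ℕ) (η : σ → MvPolynomial σ ℂ),
    ∑ i, (F * MvPolynomial.pderiv i (η i) +
      MvPolynomial.C (s - (m : ℂ)) * (MvPolynomial.pderiv i F * η i)) ≠ F ^ (m + 1)

end Cone

/-- `TCG σ f Z`: the formal power series `f` (in the variables `σ`) vanishes at the origin, and the
`Z e`, `e ≥ 1`, are its twisted local topological zeta functions at the origin. The rules are

* `smooth`: `f = 0` is smooth: `Z_1 = 1 / (s + 1)` and `Z_e = 0` for `e > 1`;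
* `curve`: `f` is a polynomial in two variables, without multiple factors through the origin, and the
  zeta functions are computed by blowing up points of the plane (`RedZeta`);
* `swh`: `f = G₀ + g`, where the polynomial `G₀` is weighted homogeneous and has an isolated critical
  point at the origin, and all the terms of `g` have greater weight;
* `sum`: the Thom-Sebastiani sum `f(x) + g(y)`; `M ≥ 1` is a number such that `Z_c = 0` if `c ≥ 2` does
  not divide `M`;
* `cone`: `f = f_d + R` in the `n` variables `Option τ`, where `f_d` is a form of degree `d ≥ 2` and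
  all terms of `R` have greater degree. The points `P = p_i` of the projective space (pairwise
  different) contain all the singular points of the tangent cone `f_d = 0`. Near `P` there are formal
  coordinates `(z, y)` of the blowing up of the origin, such that `z = 0` is the exceptional divisor
  (the blowing up is `x = z ξ(z, y)` with `ξ(0, 0) = p_i`, and the Jacobian determinant is `z ^ (n - 1)`
  up to a unit), and `f = z ^ d (g_P(y) + z ^ k_P)` up to a unit, where `k_P ≥ 1`, `n ≤ d + k_P`, and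
  `g_P` is in the class. (For instance, `k_P = k` for all `P` if all terms of `R` have degree at least
  `d + k`, and the terms of degree `d + k` do not vanish at the points `P`: superisolated and
  Lê-Yomdin singularities.) The zeta functions are given by `coneW`, where `A` is the Euler
  characteristic of the complement of the tangent cone. It is assumed that the number `- n / d` is not
  a pole of the functions `W_e`, or that the differential form `f_d ^ (- n / d) dx_1 ∧ ⋯ ∧ dx_n` is not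
  exact on the complement of `f_d = 0` (`NonExact`), or that for one of the points `P` there is a de
  Rham functional for `g_P ^ (- n / d) dy` with the value `1` (`NV`);
* `ren`: other names of the variables;
* `coord`: `f'(φ) = u f` with formal coordinates `φ` and a unit `u`. -/
inductive TCG : (σ : Type) → MvPowerSeries σ ℂ → (ℕ → RatFunc ℂ) → Prop
  | smooth {σ : Type} [Finite σ] (f : MvPowerSeries σ ℂ) (h0 : MvPowerSeries.constantCoeff f = 0)
      (i : σ) (h1 : MvPowerSeries.coeff (Finsupp.single i 1) f ≠ 0) :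
      TCG σ f (fun e => if e = 1 then 1 / (RatFunc.X + 1) else 0)
  | curve (F : MvPolynomial (Fin 2) ℂ) (hF : F ≠ 0) (h0 : MvPolynomial.constantCoeff F = 0)
      (Z : ℕ → RatFunc ℂ) (hZ : ∀ e, 1 ≤ e → RedZeta (tfac e) 1 F 0 1 0 1 (Z e)) :
      TCG (Fin 2) (F : MvPowerSeries (Fin 2) ℂ) Z
  | swh {σ : Type} [Fintype σ] [Nonempty σ] (G0 : MvPolynomial σ ℂ) (g : MvPowerSeries σ ℂ)
      (w : σ → ℕ) (D : ℕ) (hw : ∀ i, 0 < w i) (hD : 0 < D) (hG0 : G0.IsWeightedHomogeneous w D)
      (hg : OrdF w (D + 1) g) (h0 : ∀ i, MvPolynomial.coeff (Finsupp.single i 1) G0 = 0)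
      (h1 : ∀ i, MvPowerSeries.coeff (Finsupp.single i 1) g = 0)
      (hz : ∀ z : σ → ℂ, (∀ i, MvPolynomial.eval z (MvPolynomial.pderiv i G0) = 0) → z = 0) :
      TCG σ ((G0 : MvPowerSeries σ ℂ) + g) (swZ w D)
  | sum {σ τ : Type} [Finite σ] [Finite τ] (f : MvPowerSeries σ ℂ) (g : MvPowerSeries τ ℂ)
      (Z Z' : ℕ → RatFunc ℂ) (hf : TCG σ f Z) (hg : TCG τ g Z') (M : ℕ) (hM : 1 ≤ M)
      (hMZ : ∀ c, 2 ≤ c → ¬ c ∣ M → Z c = 0) (w w' : ℕ → (ℂ × ℕ →₀ ℂ))
      (hw : ∀ c, 1 ≤ c → WW Z c = lap (w c)) (hw' : ∀ c, 1 ≤ c → WW Z' c = lap (w' c)) :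
      TCG (σ ⊕ τ) (MvPowerSeries.rename Sum.inl f + MvPowerSeries.rename Sum.inr g) (tsZ M w w')
  | cone {τ ι : Type} [Fintype τ] [DecidableEq τ] [Fintype ι] (d : ℕ) (hd : 2 ≤ d)
      (f0 : MvPolynomial (Option τ) ℂ) (hf0 : f0.IsHomogeneous d) (hf00 : f0 ≠ 0)
      (R : MvPowerSeries (Option τ) ℂ) (hR : OrdF (fun _ => 1) (d + 1) R)
      (p : ι → Option τ → ℂ) (hp : ∀ i j, i ≠ j → ∀ c : ℂ, p i ≠ c • p j)
      (hsing : ∀ x : Option τ → ℂ, x ≠ 0 →
        (∀ l, MvPolynomial.eval x (MvPolynomial.pderiv l f0) = 0) → ∃ i, ∃ c : ℂ, x = c • p i)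
      (k : ι → ℕ) (hk : ∀ i, 1 ≤ k i) (hn : ∀ i, Fintype.card τ + 1 ≤ d + k i)
      (ξ : ι → Option τ → MvPowerSeries (Option τ) ℂ)
      (hξ : ∀ i l, MvPowerSeries.constantCoeff (ξ i l) = p i l)
      (J U : ι → MvPowerSeries (Option τ) ℂ) (hJu : ∀ i, IsUnit (J i)) (hU : ∀ i, IsUnit (U i))
      (hJ : ∀ i, (Matrix.of fun l m => MvPowerSeries.pderiv ℂ m (MvPowerSeries.X none * ξ i l)).det =
        MvPowerSeries.X none ^ Fintype.card τ * J i)
      (g : ι → MvPowerSeries τ ℂ) (Z : ι → ℕ → RatFunc ℂ) (hg : ∀ i, TCG τ (g i) (Z i))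
      (hf : ∀ i, MvPowerSeries.subst (fun l => MvPowerSeries.X none * ξ i l)
          ((f0 : MvPowerSeries (Option τ) ℂ) + R) =
        U i * (MvPowerSeries.X none ^ d *
          (MvPowerSeries.rename some (g i) + MvPowerSeries.X none ^ k i)))
      (A : ℤ)
      (hA : NonExact f0 (-((Fintype.card τ + 1 : ℕ) : ℂ) / d) ∨
        (∃ i, NV (g i) (-((Fintype.card τ + 1 : ℕ) : ℂ) / d) ∧ Sing (g i)) ∨
        ∀ e, 1 ≤ e → coneW (Fintype.card τ + 1) d A k Z e ∈
          Reg (-((Fintype.card τ + 1 : ℕ) : ℂ) / d)) :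
      TCG (Option τ) ((f0 : MvPowerSeries (Option τ) ℂ) + R)
        (ofW (coneW (Fintype.card τ + 1) d A k Z))
  | ren {σ τ : Type} [Finite σ] (ε : σ ≃ τ) (f : MvPowerSeries σ ℂ) (Z : ℕ → RatFunc ℂ)
      (hf : TCG σ f Z) : TCG τ (MvPowerSeries.rename ε f) Z
  | coord {σ : Type} [Fintype σ] [DecidableEq σ] (f f' : MvPowerSeries σ ℂ) (Z : ℕ → RatFunc ℂ)
      (hf : TCG σ f Z) (φ : σ → MvPowerSeries σ ℂ) (u : MvPowerSeries σ ℂ) (hφ : IsCo φ)
      (hu : IsUnit u) (h : MvPowerSeries.subst φ f' = u * f) : TCG σ f' Z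

end Pool.Agent.J4H50.YO
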