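import Pool.Agent.J4H50.YO.Defs
import Pool.Agent.J4H50.TF.Fin

set_option autoImplicit false

/-! # Project YO: exact statements

`α k q` is the value of one functional at the differential form `q F ^ (s - k) dx`; the functional
vanishes on exact forms (`clo`) and is continuous (`cts`). -/

namespace Pool.Agent.J4H50.YO

open Pool.Agent.W574.SM Pool.Agent.N103 Pool.Agent.N103.V Pool.Agent.Y229
open Pool.Agent.J4H50.TT Pool.Agent.J4H50.TF
open MvPowerSeries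

/-- (NFE) Proof: `h0` says that `F` and the `∂_i F` have no constant term. Suppose `FEv F s` (`TF.B`)
with `k`. Choose `n ≥ N_k`, and `M = n + k + 1 ≥` all the `N_j`, `j ≤ k + 1` (enlarge `n`), `G = tr M F`. For
polynomials `q`: `α (j+1) (G q) = α j q`, `α j (∂_i q) + (s - j) α (j+1) (∂_i G q) = 0` for `j < k` because
`G - F` and `∂_i G - ∂_i F` only have terms of large degree (take `n` a little larger). By induction
(`NI.KI_ind`), `α j` vanishes on `KI s G j` for `j ≤ k` (for `j = 0` because the generators have no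
constant term, and `α 0` is the constant term). But `α k (G ^ k) = α 0 1 = 1`, and `α k` vanishes on
`mI ^ n`. -/
def S_NFE : Prop := ∀ {σ : Type} [Finite σ] (F : MvPowerSeries σ ℂ) (s : ℂ),
  Sing F → NV F s → ¬ FEv F s

/-- the binomial coefficient `a (a - 1) ⋯ (a - i + 1) / i!` -/
noncomputable def cb (a : ℂ) (i : ℕ) : ℂ := (∏ j ∈ Finset.range i, (a - j)) / i.factorial

/-- (PT) perturbation: `α_k(q) = ∑_i cb (s - k) i * β_(k+i) (R ^ i q)` (a finite sum). -/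
def S_PT : Prop := ∀ {σ : Type} (F R : MvPowerSeries σ ℂ) (s : ℂ)
  (β : ℕ → MvPowerSeries σ ℂ →ₗ[ℂ] ℂ), DR s F β →
  (∀ k, ∃ I : ℕ, ∀ i, I ≤ i → ∀ q, β (k + i) (R ^ i * q) = 0) →
  ∃ α, DR s (F + R) α ∧ ∀ q, (∀ i, 1 ≤ i → β i (R ^ i * q) = 0) → α 0 q = β 0 q

/-- (PU) pull back by a map `Ψ`: `α_k(q) = β_k(det q(Ψ))`. Proof: chain rule (`SM.pderiv_subst`) and the
identity of Piola, as in `SM.T0_det` (file `W574/SM/Piola.lean`), which is to be adapted: for power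
series `η_l` (`l : σ`), `i0 : σ`, with `M = (∂_m η_l)` and `M'` the same matrix with `(∂_m F) η_{i0}`
instead of `∂_m η_{i0}` in the row `i0`: `β_k (det M) + (s - k) β_(k+1) (det M') = 0`. Apply this with
`η_l = Ψ_l` for `l ≠ i0`, `η_{i0} = q(Ψ)`. -/
def S_PU : Prop := ∀ {σ : Type} [Fintype σ] [DecidableEq σ] (f F : MvPowerSeries σ ℂ)
  (Ψ : σ → MvPowerSeries σ ℂ) (s : ℂ) (β : ℕ → MvPowerSeries σ ℂ →ₗ[ℂ] ℂ),
  (∀ i, constantCoeff (Ψ i) = 0) → subst Ψ f = F → DR s F β →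
  ∃ α, DR s f α ∧ ∀ k q,
    α k q = β k ((Matrix.of fun l m => pderiv ℂ m (Ψ l)).det * subst Ψ q)

/-- (UN) units: if `DR s F β`, `u` is a unit, then there is `α` with `DR s (u F) α`, such that
`α 0 q = β 0 q` for all `q` with `β 0 (m q) = 0` for the `m` without constant term. From (PT) with
`R = w F`, `u = u(0) (1 + w)`, and the rescaling `β_k / c ^ k` for the constant `c = u(0)`. -/
def S_UN : Prop := ∀ {σ : Type} (F u : MvPowerSeries σ ℂ) (s : ℂ)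
  (β : ℕ → MvPowerSeries σ ℂ →ₗ[ℂ] ℂ), DR s F β → IsUnit u →
  ∃ α, DR s (u * F) α ∧ ∀ q, (∀ w, constantCoeff w = 0 → β 0 (w * q) = 0) → α 0 q = β 0 q

/-- (CO) coordinates and units -/
def S_CO : Prop := ∀ {σ : Type} [Fintype σ] [DecidableEq σ] (f f' : MvPowerSeries σ ℂ)
  (φ : σ → MvPowerSeries σ ℂ) (u : MvPowerSeries σ ℂ) (s : ℂ), IsCo φ → IsUnit u →
  subst φ f' = u * f → (NV f s → NV f' s) ∧ (Sing f → Sing f')

/-- (RN) other names of the variables -/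
def S_RN : Prop := ∀ {σ τ : Type} [Finite σ] (ε : σ ≃ τ) (f : MvPowerSeries σ ℂ) (s : ℂ),
  (NV f s → NV (rename ε f) s) ∧ (Sing f → Sing (rename ε f))

/-- (SU) Thom-Sebastiani sums: `γ_k(q) = ([s]_k)⁻¹ ∑_j [s₁]_j [s₂]_(k-j) (α_j ⊗ β_(k-j)) (q)`,
`s = s₁ + s₂`, where `[s]_k = s (s - 1) ⋯ (s - k + 1)`, and `α ⊗ β` is defined by
`(α ⊗ β)(q) = ∑ coeff (x, y) q α(X ^ x) β(X ^ y)` (a finite sum by continuity). Compare `TF.C`, `TT.TSum`. -/
def S_SU : Prop := ∀ {σ τ : Type} [Finite σ] [Finite τ] (f : MvPowerSeries σ ℂ)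
  (g : MvPowerSeries τ ℂ) (s₁ s₂ : ℂ), (∀ m : ℕ, s₁ + s₂ ≠ m) →
  Sing f → Sing g → NV f s₁ → NV g s₂ →
  NV (rename Sum.inl f + rename Sum.inr g) (s₁ + s₂)

/-- (SW) semi-weighted-homogeneous power series: `β_m(h) = L(h_(D m)) / ((-1) ^ m [s]_m)` for `G₀` with the
functional `L` of `per_swh_loc2` (file `TF/G.lean`; `h_(D m)` is the weighted homogeneous component),
then (PT) with `R = g`. -/
def S_SW : Prop := ∀ {σ : Type} [Fintype σ] [Nonempty σ] (G0 : MvPolynomial σ ℂ)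
  (g : MvPowerSeries σ ℂ) (w : σ → ℕ) (D : ℕ), (∀ i, 0 < w i) → 0 < D →
  G0.IsWeightedHomogeneous w D → OrdF w (D + 1) g →
  (∀ i, MvPolynomial.coeff (Finsupp.single i 1) G0 = 0) →
  (∀ i, coeff (Finsupp.single i 1) g = 0) →
  (∀ z : σ → ℂ, (∀ i, MvPolynomial.eval z (MvPolynomial.pderiv i G0) = 0) → z = 0) →
  NV ((G0 : MvPowerSeries σ ℂ) + g) (-(((∑ i, w i : ℕ) : ℂ) / (D : ℂ))) ∧
  Sing ((G0 : MvPowerSeries σ ℂ) + g)

/-- (NE) If the form `f0 ^ s dx`, `s = - n / d`, is not exact on the complement of the cone `f0 = 0`, then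
there is a functional for `f0 + R`. Proof: a linear functional `λ` on `ℂ[x][1/f0]` which vanishes on the
exact elements `∂_i x + s (∂_i f0 / f0) x`, with `λ 1 = 1` (compare `TT.exists_fam`);
`β_k(q) = λ (q_(k d) / f0 ^ k)`, `q_m` the homogeneous component of `q`; then (PT). -/
def S_NE : Prop := ∀ {σ : Type} [Fintype σ] [Nonempty σ] (d : ℕ) (f0 : MvPolynomial σ ℂ)
  (R : MvPowerSeries σ ℂ), 1 ≤ d → f0.IsHomogeneous d → f0 ≠ 0 → OrdF (fun _ => 1) (d + 1) R →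
  NonExact f0 (-((Fintype.card σ : ℕ) : ℂ) / d) →
  NV ((f0 : MvPowerSeries σ ℂ) + R) (-((Fintype.card σ : ℕ) : ℂ) / d)

/-- (LM) the local model: with a family `β` for `g` at `S`,
`V_j(z ^ l b(y)) = c(j, m) β_m(b)` if `l - (n - 1) = (d + k) j - k m` with `m ≥ 0`, and `0` otherwise;
`c(j, m) = [S]_m [s - S]_(j-m) / [s]_j` for `m ≤ j`, and for `m > j`
`c(j, m) = [S]_m / ((s - S + 1) ⋯ (s - S + m - j) [s]_j)` (all factors are not zero, as
`s - S = - (n + d s) / k`). The identities: `c(j, m) = c(j+1, m+1) + c(j+1, m)`,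
`(s - j) c(j+1, m+1) = (S - m) c(j, m)`, `(s - j) c(j+1, m) = (s - j - S + m) c(j, m)`. -/
def S_LM : Prop := ∀ {τ : Type} [Finite τ] (g : MvPowerSeries τ ℂ) (S s : ℂ) (d k n : ℕ),
  1 ≤ d → 1 ≤ k → 1 ≤ n → (k : ℂ) * S = n + (d + k : ℕ) * s → (∀ m : ℕ, s ≠ m) →
  (∀ i : ℕ, 1 ≤ i → (n : ℂ) + d * s ≠ k * i) → Sing g → NV g S →
  ∃ V, DR s (X none ^ d * (rename some g + X none ^ k)) V ∧
    ∀ q, V 0 (X none ^ (n - 1) * q) = constantCoeff q

/-- (CN) the cone: from (LM), (UN), (PU) -/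
def S_CN : Prop := ∀ {τ : Type} [Fintype τ] [DecidableEq τ] (f : MvPowerSeries (Option τ) ℂ)
  (Ψ : Option τ → MvPowerSeries (Option τ) ℂ) (J U : MvPowerSeries (Option τ) ℂ)
  (g : MvPowerSeries τ ℂ) (S s : ℂ) (d k : ℕ),
  1 ≤ d → 1 ≤ k → (k : ℂ) * S = (Fintype.card τ + 1 : ℕ) + (d + k : ℕ) * s → (∀ m : ℕ, s ≠ m) →
  (∀ i : ℕ, 1 ≤ i → ((Fintype.card τ + 1 : ℕ) : ℂ) + d * s ≠ k * i) →
  (∀ i, constantCoeff (Ψ i) = 0) → IsUnit J → IsUnit U →
  (Matrix.of fun l m => pderiv ℂ m (Ψ l)).det = X none ^ Fintype.card τ * J →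
  subst Ψ f = U * (X none ^ d * (rename some g + X none ^ k)) →
  Sing g → NV g S → NV f s

/-- (RG) the poles of the functions `coneW` -/
def S_RG : Prop := ∀ {ι : Type} [Fintype ι] (n d : ℕ) (A : ℤ) (k : ι → ℕ)
  (Z : ι → ℕ → RatFunc ℂ) (e : ℕ) (s : ℂ), 1 ≤ n → 1 ≤ d → (∀ i, 1 ≤ k i) → 1 ≤ e →
  coneW n d A k Z e ∉ Reg s →
  (n : ℂ) + d * s = 0 ∨ ∃ i, ∃ c, 1 ≤ c ∧
    WW (Z i) c ∉ Reg ((((d + k i : ℕ) : ℂ) / k i) * s + (n : ℂ) / k i)

/-- (SZ) the poles of the functions `W_e` in the semi-weighted-homogeneous case -/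
def S_SZ : Prop := ∀ {σ : Type} [Fintype σ] [Nonempty σ] (G0 : MvPolynomial σ ℂ)
  (w : σ → ℕ) (D : ℕ) (e : ℕ) (s : ℂ), (∀ i, 0 < w i) → 0 < D →
  G0.IsWeightedHomogeneous w D →
  (∀ i, MvPolynomial.coeff (Finsupp.single i 1) G0 = 0) →
  (∀ z : σ → ℂ, (∀ i, MvPolynomial.eval z (MvPolynomial.pderiv i G0) = 0) → z = 0) →
  1 ≤ e → WW (swZ w D) e ∉ Reg s → s = -(((∑ i, w i : ℕ) : ℂ) / (D : ℂ))

/-- (CU) reduced plane curves. Proof: as for `Ev H F s` in `N103/V` (files Eng, Star, Blow, Leaf, NodeA,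
NodeB; here `κ` is empty, `a = 1`, `f = 1`), with `¬ NV F s` instead of `Ev`. In `N103.V.engine2`
the subspace is `U = {x | ∃ r, (Jh x Vn).coeff n = δ r + s₀ (δ Q Qi) r}` (only `p = 1`); it contains all
`nab_i x`, all `φ (X_i p)` and almost all of the `φ(m ^ N) Gi ^ k`; if it does not contain `1`, a linear
functional on the quotient by `U` gives the family `α_k(q) = λ(φ q Gi ^ k)` (to be extended to power
series by continuity). In the leaves only the multiplicity `1` occurs (`RedZeta`), so that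
`typeH_ne`, `curve_ne`, `nodeT` are not needed. -/
def S_CU : Prop := ∀ (F : MvPolynomial (Fin 2) ℂ), F ≠ 0 → MvPolynomial.constantCoeff F = 0 →
  ∀ Z : ℕ → RatFunc ℂ, (∀ e, 1 ≤ e → RedZeta (tfac e) 1 F 0 1 0 1 (Z e)) →
  ∀ e, 1 ≤ e → ∀ s : ℂ, WW Z e ∉ Reg s →
    s.re < 0 ∧ NV (F : MvPowerSeries (Fin 2) ℂ) s ∧ Sing (F : MvPowerSeries (Fin 2) ℂ)

end Pool.Agent.J4H50.YO
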