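import Pool.Agent.J4H50.YO.CuD
import Pool.Agent.J4H50.YO.Stm

set_option autoImplicit false
set_option linter.unusedSectionVars false
set_option linter.unusedVariables false
set_option linter.unusedSimpArgs false

/-! # Reduced plane curves -/

namespace Pool.Agent.J4H50.YO

attribute [-instance] HahnSeries.powerSeriesAlgebra

open Pool.Agent.W574.SM Pool.Agent.N103 Pool.Agent.N103.V Pool.Agent.J4H50.TT Pool.Agent.Y229
open Polynomial

section Red

variable {R : Type} [CommRing R] {Φ : ℕ → ℕ → R} {l : R}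

theorem htF : HasType (κ := Empty) (fun _ => (1 : MP)) false := by
  show MvPolynomial.constantCoeff (1 : MP) ≠ 0
  rw [map_one]
  exact one_ne_zero

theorem tf1 (Φ : ℕ → ℕ → R) (a : ℕ) : typeFactor Φ a false = 1 := rfl

theorem redGerm {h : MP} {a0 n0 a1 n1 : ℕ} {Z : R} (hZ : RedZeta Φ l h a0 n0 a1 n1 Z) :
    GermZeta (κ := Empty) Φ l 1 h (fun _ => 1) a0 n0 a1 n1 Z := by
  induction hZ with
  | unit h a0 n0 a1 n1 hh =>
    have := GermZeta.unit (κ := Empty) (Φ := Φ) (ℓ := l) (a := 1) h (fun _ => 1) a0 n0 a1 n1 hh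
      false htF
    rwa [tf1, mul_one] at this
  | curveV h a0 n0 h0 h1 =>
    have := GermZeta.curveV (κ := Empty) (Φ := Φ) (ℓ := l) (a := 1) h (fun _ => 1) a0 n0 1 0
      (by norm_num) h 1 (fun _ => 1) (by ring) (fun j => by rw [pow_zero, mul_one]) h0 h1
      (by rw [map_one]; exact one_ne_zero) false htF
    rwa [tf1, mul_one] at this
  | curveU h a1 n1 h0 h1 =>
    have := GermZeta.curveU (κ := Empty) (Φ := Φ) (ℓ := l) (a := 1) h (fun _ => 1) a1 n1 1 0
      (by norm_num) h 1 (fun _ => 1) (by ring) (fun j => by rw [pow_zero, mul_one]) h0 h1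
      (by rw [map_one]; exact one_ne_zero) false htF
    rwa [tf1, mul_one] at this
  | blowup h a0 n0 a1 n1 m hm hc hI hhc hhI S h0S hS Zc ZI hz0 hcS hZI ih0 ihc ihI =>
    have := GermZeta.blowup (κ := Empty) (Φ := Φ) (ℓ := l) (a := 1) h (fun _ => 1) a0 n0 a1 n1 m 0
      (by omega) hc (fun _ _ => 1) hI (fun _ => 1) hhc
      (fun c j => by rw [map_one, pow_zero, mul_one]) hhI
      (fun j => by rw [map_one, pow_zero, mul_one]) S h0S false (fun c hc' => ⟨hS c hc', htF⟩) Zc
      ZI ih0 ihc ihI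
    rwa [tf1, mul_one] at this

noncomputable def gInit (F : MP) : GD F F 0 1 0 1 where
  ξ := fun i => MvPolynomial.X i
  b0 := 0
  c0 := 0
  b1 := 0
  c1 := 0
  Wh := 1
  Wf := 1
  W' := 1
  hWh := by simp
  hWf := by simp
  hW' := by simp
  eh := by
    rw [pow_zero, pow_zero, mul_one, mul_one, one_mul]
    exact MvPolynomial.aeval_X_left_apply F
  ef := fun j => by
    rcases j with _ | j
    · rw [fc]
      simp
    · exact j.elim
  ea0 := by simp
  ea1 := by simp
  eJ := by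
    rw [jac, Matrix.det_fin_two]
    simp only [Matrix.of_apply]
    rw [MvPolynomial.pderiv_X_self, MvPolynomial.pderiv_X_self,
      MvPolynomial.pderiv_X_of_ne (by decide), MvPolynomial.pderiv_X_of_ne (by decide)]
    ring
  eP := fun i => by simp
  eK0 := fun h => absurd h (by omega)
  eK1 := fun h => absurd h (by omega)

theorem FF_eq (F : MP) : FF F (fun _ : Option Empty => (1 : MP)) 1
    = MvPolynomial.rename Sum.inl F := by
  rw [FF, lin]
  simp

theorem FF_ne {F : MP} (hF : F ≠ 0) : FF F (fun _ : Option Empty => (1 : MP)) 1 ≠ 0 := by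
  rw [FF_eq]
  intro h
  exact hF (MvPolynomial.rename_injective _ Sum.inl_injective (by rw [h, map_zero]))

theorem point3 {F : MP} (hF : F ≠ 0) {s0 : ℂ} {D : Subring R}
    (hE : Evp (FF F (fun _ : Option Empty => (1 : MP)) 1) s0) (hD : ZData D s0 Φ l)
    (h11 : Φ 1 1 ∈ D) {Z : R} (hZ : RedZeta Φ l F 0 1 0 1 Z) : Z ∈ D := by
  obtain ⟨c0, m0, c1, m1, _, _, h1⟩ := all3 (FF_ne hF) hE hD h11 hZ
    { geom := ⟨gInit F⟩
      hn0 := le_rfl
      hn1 := le_rfl
      hz0 := fun _ => rfl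
      hz1 := fun _ => rfl
      hJ1 := fun m _ => by simp
      hJ2 := fun h => absurd h (lt_irrefl 0)
      hJ2' := fun h => absurd h (lt_irrefl 0)
      hH0 := fun h => by simp at h
      hH1 := fun h => by simp at h }
  rw [hD.one, mul_one, mul_one] at h1
  have h2 := D.add_mem (D.add_mem h1 m1) m0
  rwa [sub_add_cancel, sub_add_cancel] at h2

end Red

section Lift

theorem lift3 {h' : MP} {a0 n0 a1 n1 : ℕ} {Z : RatFunc ℂ} (hZ : RedZeta fac 1 h' a0 n0 a1 n1 Z) :
    1 ≤ n0 → 1 ≤ n1 → ¬ (a0 = 1 ∧ n0 = 1) → ¬ (a1 = 1 ∧ n1 = 1) →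
    ∃ Y : (RatFunc ℂ)[X], RedZeta fT 1 h' a0 n0 a1 n1 Y ∧ Y.eval (fac 1 1) = Z ∧
      Y.natDegree ≤ 1 := by
  classical
  induction hZ with
  | unit h' a0 n0 a1 n1 hh =>
    intro hn0 hn1 hz0 hz1
    refine ⟨_, RedZeta.unit h' a0 n0 a1 n1 hh, ?_, ?_⟩
    · rw [eval_mul, fT_eval, fT_eval]
    · rw [fT_C hz0, fT_C hz1, ← C_mul, natDegree_C]
      exact Nat.zero_le 1
  | curveV h' a0 n0 h0 h1 =>
    intro hn0 hn1 hz0 hz1
    refine ⟨_, RedZeta.curveV h' a0 n0 h0 h1, ?_, ?_⟩
    · rw [eval_mul, fT_eval, fT_eval]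
    · rw [fT_C hz0]
      exact (natDegree_C_mul_le _ _).trans (fT_deg _ _)
  | curveU h' a1 n1 h0 h1 =>
    intro hn0 hn1 hz0 hz1
    refine ⟨_, RedZeta.curveU h' a1 n1 h0 h1, ?_, ?_⟩
    · rw [eval_mul, fT_eval, fT_eval]
    · rw [fT_C hz1]
      exact (natDegree_C_mul_le _ _).trans (fT_deg _ _)
  | blowup h' a0 n0 a1 n1 m hm hc hI hhc hhI S h0S hS Zc ZI hz0 hcS hZI ih0 ihc ihI =>
    intro hn0 hn1 hy0 hy1
    obtain ⟨Y0, hY0, e0, d0⟩ := ih0 (by omega) hn1 (by omega) hy1
    obtain ⟨YI, hYI, eI, dI⟩ := ihI hn0 (by omega) hy0 (by omega)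
    have hch : ∀ c' : ℂ, ∃ Y : (RatFunc ℂ)[X], (c' ∈ S → c' ≠ 0 →
        RedZeta fT 1 (hc c') (a0 + a1 + m) (n0 + n1) 0 1 Y ∧
          Y.eval (fac 1 1) = Zc c' ∧ Y.natDegree ≤ 1) := by
      intro c'
      by_cases hcS : c' ∈ S ∧ c' ≠ 0
      · obtain ⟨Y, hY, e⟩ := ihc c' hcS.1 hcS.2 (by omega) le_rfl (by omega) (by omega)
        exact ⟨Y, fun _ _ => ⟨hY, e⟩⟩
      · exact ⟨0, fun h1 h2 => absurd ⟨h1, h2⟩ hcS⟩
    choose Y hY using hch
    let Yc : ℂ → (RatFunc ℂ)[X] := fun c' => if c' = 0 then Y0 else Y c'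
    have hYc : ∀ c' ∈ S, (Yc c').eval (fac 1 1) = Zc c' ∧ (Yc c').natDegree ≤ 1 := by
      intro c' hcS
      by_cases h : c' = 0
      · simp only [Yc, if_pos h]
        rw [h]
        exact ⟨e0, d0⟩
      · simp only [Yc, if_neg h]
        exact (hY c' hcS h).2
    refine ⟨_, RedZeta.blowup h' a0 n0 a1 n1 m hm hc hI hhc hhI S h0S hS Yc YI ?_ ?_ hYI, ?_, ?_⟩
    · simp only [Yc, if_pos]
      exact hY0
    · intro c' hcS h
      simp only [Yc, if_neg h]
      exact (hY c' hcS h).1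
    · rw [eval_add, eval_add, eval_finsetSum, eI, Finset.sum_congr rfl fun c' hc' => (hYc c' hc').1,
        eval_mul, fT_eval, eval_sub, eval_one, eval_natCast]
    · refine (natDegree_add_le _ _).trans (max_le ((natDegree_add_le _ _).trans (max_le dI ?_)) ?_)
      · exact natDegree_sum_le_of_forall_le _ _ fun c' hc' => (hYc c' hc').2
      · have h2 : fT (a0 + a1 + m) (n0 + n1) = C (fac (a0 + a1 + m) (n0 + n1)) := fT_C (by omega)
        have h3 : (1 - (S.card : (RatFunc ℂ)[X])) * fT (a0 + a1 + m) (n0 + n1)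
            = C ((1 - (S.card : RatFunc ℂ)) * fac (a0 + a1 + m) (n0 + n1)) := by
          rw [h2, C_mul, C_sub, C_1, C_eq_natCast]
        rw [h3, natDegree_C]
        exact Nat.zero_le 1

/-- **The pole `-1` of the contribution of a point is simple.** -/
theorem simple3 {F : MP} (hF : F ≠ 0) (hE : Evp (FF F (fun _ : Option Empty => (1 : MP)) 1) (-1))
    {Z : RatFunc ℂ} (hZ : RedZeta fac 1 F 0 1 0 1 Z) : (RatFunc.X + 1) * Z ∈ Reg (-1) := by
  obtain ⟨Y, hY, e, d⟩ := lift3 hZ le_rfl le_rfl (by decide) (by decide)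
  have h1 : Y ∈ DT (-1) := by
    refine point3 hF hE zdata_T ?_ hY
    rw [fT, if_pos ⟨rfl, rfl⟩]
    exact X_mem_DT _
  have h2 : Z = Y.coeff 0 + Y.coeff 1 * fac 1 1 := by
    rw [← e]
    conv_lhs => rw [eq_X_add_C_of_natDegree_le_one d]
    simp
    ring
  have h3 : (RatFunc.X + 1) * fac 1 1 = (1 : RatFunc ℂ) := by
    rw [fac, Nat.cast_one, one_mul, add_comm (1 : RatFunc ℂ), mul_one_div, div_self X1_ne]
  rw [h2]
  have h5 : (RatFunc.X + 1) * (Y.coeff 0 + Y.coeff 1 * fac 1 1)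
      = (RatFunc.X + 1) * Y.coeff 0 + Y.coeff 1 := by
    linear_combination (Y.coeff 1) * h3
  rw [h5]
  exact Subring.add_mem _ (Subring.mul_mem _ (X1_mem _) (h1 0)) (h1 1)

end Lift

section Sing

open MvPowerSeries

theorem pd_comm {σ : Type} (F : MvPowerSeries σ ℂ) (i j : σ) :
    MvPowerSeries.pderiv ℂ i (MvPowerSeries.pderiv ℂ j F) =
      MvPowerSeries.pderiv ℂ j (MvPowerSeries.pderiv ℂ i F) := by
  classical
  ext x
  by_cases hij : i = j
  · rw [hij]
  · rw [MvPowerSeries.coeff_pderiv, MvPowerSeries.coeff_pderiv, MvPowerSeries.coeff_pderiv,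
      MvPowerSeries.coeff_pderiv]
    have h1 : x + Finsupp.single i 1 + Finsupp.single j 1
      = x + Finsupp.single j 1 + Finsupp.single i 1 := by
      rw [add_assoc, add_assoc, add_comm (Finsupp.single i 1)]
    rw [h1]
    simp [hij, Ne.symm hij]
    ring

theorem NV_sing (F : MvPowerSeries (Fin 2) ℂ) (s : ℂ) (h0 : constantCoeff F = 0) (h : NV F s) :
    Sing F := by
  classical
  obtain ⟨α, hα, h1⟩ := h
  have key : ∀ i j : Fin 2, i ≠ j → constantCoeff (MvPowerSeries.pderiv ℂ i F) = 0 := by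
    intro i j hij
    have e1 := hα.clo 0 j (MvPowerSeries.pderiv ℂ i F * MvPowerSeries.X j)
    have e2 := hα.clo 0 i (MvPowerSeries.pderiv ℂ j F * MvPowerSeries.X j)
    have e3 : MvPowerSeries.pderiv ℂ j (MvPowerSeries.pderiv ℂ i F * MvPowerSeries.X j) -
        MvPowerSeries.pderiv ℂ i (MvPowerSeries.pderiv ℂ j F * MvPowerSeries.X j) =
        MvPowerSeries.pderiv ℂ i F := by
      rw [Derivation.leibniz, Derivation.leibniz, MvPowerSeries.pderiv_X_self,
        MvPowerSeries.pderiv_X_of_ne (Ne.symm hij), pd_comm F i j]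
      simp only [smul_eq_mul, mul_one, mul_zero]
      ring
    have e4 : MvPowerSeries.pderiv ℂ j F * (MvPowerSeries.pderiv ℂ i F * MvPowerSeries.X j) =
        MvPowerSeries.pderiv ℂ i F * (MvPowerSeries.pderiv ℂ j F * MvPowerSeries.X j) := by
      ring
    rw [← h1, ← e3, map_sub]
    rw [e4] at e1
    linear_combination e1 - e2
  intro x hx
  by_cases h2 : x = 0
  · rw [h2, coeff_zero_eq_constantCoeff_apply, h0]
  · have h3 : ∃ i, x = Finsupp.single i 1 := by
      obtain ⟨i, hi⟩ := Finsupp.ne_iff.1 h2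
      refine ⟨i, ?_⟩
      have hi1 : 1 ≤ x i := Nat.one_le_iff_ne_zero.2 hi
      have hle : Finsupp.single i 1 ≤ x := by
        rw [Finsupp.single_le_iff]
        exact hi1
      obtain ⟨y, hy⟩ := exists_add_of_le hle
      have h4 : x.degree = 1 + y.degree := by
        rw [hy, map_add, Finsupp.degree_single]
      have h5 : y.degree = 0 := by omega
      rw [hy, (Finsupp.degree_eq_zero_iff y).1 h5, add_zero]
    obtain ⟨i, rfl⟩ := h3
    have h6 := key i (if i = 0 then 1 else 0) (by fin_cases i <;> decide)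
    rw [← coeff_zero_eq_constantCoeff_apply, MvPowerSeries.coeff_pderiv] at h6
    simpa using h6

end Sing

/-- reduced plane curves -/
theorem t_CU (hRN : S_RN) : S_CU := by
  intro F hF h0 Z hZ e he s hs
  have hval : ∀ e, 1 ≤ e → ∀ s : ℂ, 0 ≤ s.re → Z e ∈ Reg s := by
    intro e he s hs
    refine germ_mem (Reg s).one_mem (fun a n hn => ?_) (redGerm (hZ e he)) le_rfl le_rfl
    rw [tfac]
    split_ifs
    · exact fac_re a n hn s hs
    · exact (Reg s).zero_mem
  have hone : ∃ r ∈ Reg 0, Z 1 = 1 + RatFunc.X * r := by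
    have h1 := redGerm (hZ 1 le_rfl)
    rw [tfac_eq, facT_one] at h1
    obtain ⟨r, hr, e⟩ := germ_val h1 le_rfl le_rfl
    refine ⟨r, hr, ?_⟩
    rw [e]
    simp
  have hre : s.re < 0 := by
    by_contra hre
    push Not at hre
    apply hs
    by_cases h1 : e = 1
    · subst h1
      rw [WW_one]
      by_cases h0 : s = 0
      · subst h0
        obtain ⟨r, hr, e⟩ := hone
        have : ((RatFunc.X + 1) * Z 1 - 1) / RatFunc.X = 1 + (RatFunc.X + 1) * r := by
          rw [e, div_eq_iff RatFunc.X_ne_zero]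
          ring
        rw [this]
        exact (Reg 0).add_mem (Reg 0).one_mem ((Reg 0).mul_mem (X1_mem 0) hr)
      · rw [div_eq_mul_inv]
        exact (Reg s).mul_mem ((Reg s).sub_mem ((Reg s).mul_mem (X1_mem s) (hval 1 le_rfl s hre))
          (Reg s).one_mem) (X_inv_reg s h0)
    · rw [WW_high Z (by omega)]
      exact hval e he s hre
  have hnv : NV (F : MvPowerSeries (Fin 2) ℂ) s := by
    by_contra hn
    have hn' : ¬ NV ((FF F (fun _ : Option Empty => (1 : MP)) 1 :
        MvPolynomial (Fin 2 ⊕ Empty) ℂ) : MvPowerSeries (Fin 2 ⊕ Empty) ℂ) s := by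
      intro h
      apply hn
      have h1 := (hRN (Equiv.sumEmpty (Fin 2) Empty) _ s).1 h
      have h2 : MvPowerSeries.rename (Equiv.sumEmpty (Fin 2) Empty)
          ((FF F (fun _ : Option Empty => (1 : MP)) 1 :
            MvPolynomial (Fin 2 ⊕ Empty) ℂ) : MvPowerSeries (Fin 2 ⊕ Empty) ℂ) =
          (F : MvPowerSeries (Fin 2) ℂ) := by
        rw [MvPowerSeries.rename_coe, FF_eq, MvPolynomial.rename_rename]
        congr 1
        have h3 : (Equiv.sumEmpty (Fin 2) Empty) ∘ (Sum.inl : Fin 2 → Fin 2 ⊕ Empty) = id := by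
          funext i
          rfl
        rw [h3, MvPolynomial.rename_id_apply]
      rw [h2] at h1
      exact h1
    have hE := evp_of _ s hn'
    apply hs
    by_cases h1 : e = 1
    · subst h1
      rw [WW_one, div_eq_mul_inv]
      refine (Reg s).mul_mem ((Reg s).sub_mem ?_ (Reg s).one_mem) (X_inv_reg s ?_)
      · have h1 := hZ 1 le_rfl
        by_cases hs : s = -1
        · rw [hs] at hE ⊢
          rw [tfac_eq, facT_one] at h1
          exact simple3 hF hE h1
        · rw [tfac_eq] at h1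
          refine (Reg s).mul_mem (X1_mem s) (point3 hF hE (zdata_tw 1 le_rfl s) ?_ h1)
          rw [facT_one]
          refine fac_mem _ _ _ fun h2 => hs ?_
          push_cast at h2
          linear_combination h2
      · rintro rfl
        rw [Complex.zero_re] at hre
        exact lt_irrefl _ hre
    · rw [WW_high Z (by omega)]
      have h2 := hZ e he
      rw [tfac_eq] at h2
      refine point3 hF hE (zdata_tw e he s) ?_ h2
      rw [facT, if_neg (by rw [Nat.dvd_one]; exact h1)]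
      exact (Reg s).zero_mem
  refine ⟨hre, hnv, NV_sing _ s ?_ hnv⟩
  rw [← MvPowerSeries.coeff_zero_eq_constantCoeff_apply, MvPolynomial.coeff_coe,
    ← MvPolynomial.constantCoeff_eq, h0]

end Pool.Agent.J4H50.YO
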