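import Pool.Agent.J4H50.YO.Stm
import Pool.Agent.N103.V.NodeB

set_option autoImplicit false
set_option linter.unusedSectionVars false
set_option linter.unusedVariables false

/-! # The engine for de Rham functionals -/

namespace Pool.Agent.J4H50.YO

attribute [-instance] HahnSeries.powerSeriesAlgebra

open Pool.Agent.W574.SM HahnSeries Pool.Agent.N103 Pool.Agent.N103.V
open Pool.Agent.J4H50.IG (mI)
open MvPolynomial (pderiv)

/-- every de Rham functional on the `q F ^ (s - k)` (with values `0` at the `q F ^ s`, `q(0) = 0`, and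
continuous) vanishes at `F ^ s` -/
def Evp {σ : Type} (F : MvPolynomial σ ℂ) (s : ℂ) : Prop :=
  ∀ (L : Type) [CommRing L] [Algebra ℂ L] (φ : MvPolynomial σ ℂ →ₐ[ℂ] L)
    (D : σ → Derivation ℂ L L) (Gi : L), (∀ i p, D i (φ p) = φ (pderiv i p)) → φ F * Gi = 1 →
    ∀ U : Submodule ℂ L, (∀ i x, nab φ D F Gi s i x ∈ U) →
    (∀ i p, φ (MvPolynomial.X i * p) ∈ U) →
    (∀ k : ℕ, ∃ N : ℕ, ∀ p ∈ mI σ ℂ ^ N, φ p * Gi ^ k ∈ U) → φ 1 ∈ U

section Engine

variable {κ : Type} [DecidableEq κ] [IsEmpty κ] {B : Type} [CommRing B] [IsDomain B] [Algebra ℂ B]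
  (x0 : B) (δ : Derivation ℂ B B) (ε : κ → Derivation ℂ B B) (Y : κ → B) (ξ : Fin 2 → MP)

theorem engine3 (hx : δ x0 = 1) (hε : ∀ j, ε j x0 = 0) (hδY : ∀ j, δ (Y j) = 0)
    (hεY : ∀ j k, ε j (Y k) = if k = j then 1 else 0)
    (hcomm : ∀ j x, δ (ε j x) = ε j (δ x))
    (F : MvPolynomial (Fin 2 ⊕ κ) ℂ)
    (n : ℕ) (hn : 1 ≤ n) (Jp : MP) (hJ : jac ξ = MvPolynomial.X 0 ^ (n - 1) * Jp)
    (hJu : IsUnit (Polynomial.aeval x0 (res0 Jp)))
    (A : ℕ) (hA : 1 ≤ A) (w : HahnSeries ℤ B) (hw : Ge 0 w)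
    (hwF : phi x0 Y ξ F = single (A : ℤ) 1 * w) (Q Qi : B) (hwQ : w.coeff 0 = Q)
    (hQ : Q * Qi = 1) (hE : Evp F (-(n : ℂ) / A))
    (hord : ∀ i, Ge 1 (emb x0 (ξ i))) :
    ∃ r : B, δ r + algebraMap ℂ B (-(n : ℂ) / A) * (δ Q * Qi) * r
      = Polynomial.aeval x0 (res0 Jp) := by
  set s0 : ℂ := -(n : ℂ) / A with hs0
  set φ := phi x0 Y ξ with hφ
  have hAc : (A : ℂ) ≠ 0 := Nat.cast_ne_zero.2 (by omega)
  -- the Jacobian
  have hJh : Jh x0 δ ξ = single (n : ℤ) 1 * emb x0 Jp := by
    obtain ⟨k, rfl⟩ : ∃ k, n = k + 1 := ⟨n - 1, by omega⟩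
    rw [Jh_eq x0 δ ξ hx, hJ, map_mul, map_pow, emb_X0, single_pow, one_pow, ← mul_assoc,
      single_mul_single, one_mul, nsmul_eq_mul, mul_one]
    congr 3
    push_cast
    ring
  have hJGe : Ge (n : ℤ) (Jh x0 δ ξ) := by
    rw [hJh]
    simpa using (Ge_single (n : ℤ) (1 : B)).mul (Ge_emb x0 Jp)
  have hJco : (Jh x0 δ ξ).coeff n = Polynomial.aeval x0 (res0 Jp) := by
    have := coeff_mul_Ge (Ge_single (n : ℤ) (1 : B)) (Ge_emb x0 Jp)
    rw [add_zero, coeff_single_same, one_mul, N103.coeff_emb] at this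
    rw [hJh, this]
  obtain ⟨Ji, hJi, _⟩ := exists_inv hJGe (by rw [hJco]; exact hJu)
  -- the inverse of `w`
  obtain ⟨wi, hwi, hwiGe⟩ := exists_inv hw (by rw [hwQ]; exact IsUnit.of_mul_eq_one Qi hQ)
  have hAA : (single (A : ℤ) (1 : B)) * single (-(A : ℤ)) 1 = 1 := by
    rw [single_mul_single, one_mul, add_neg_cancel]
    rfl
  set Gi : HahnSeries ℤ B := single (-(A : ℤ)) 1 * wi with hGi
  have hGi1 : φ F * Gi = 1 := by
    rw [hwF, hGi]
    linear_combination w * wi * hAA + hwi
  -- the root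
  have hCQ : (C Q * C Qi : HahnSeries ℤ B) = 1 := by rw [← map_mul, hQ, map_one C]
  have hw1 : Ge 0 (w * C Qi) := by simpa using hw.mul (Ge_C Qi)
  have hw1c : (w * C Qi).coeff 0 = 1 := by
    have := coeff_mul_Ge hw (Ge_C Qi)
    rw [add_zero, coeff_C0, hwQ, hQ] at this
    exact this
  obtain ⟨V, hVGe, hV1, hVA⟩ := exists_root (w * C Qi) hw1 hw1c A (by omega)
  obtain ⟨Vi, hVi, hViGe⟩ := exists_inv hVGe (by rw [hV1]; exact isUnit_one)
  rw [neg_zero] at hViGe
  have hVi1 : Vi.coeff 0 = 1 := by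
    have := coeff_mul_Ge hVGe hViGe
    rw [add_zero, hVi, coeff_one, if_pos rfl, hV1, one_mul] at this
    exact this.symm
  set Vn : HahnSeries ℤ B := Vi ^ n with hVn
  have hVnGe : Ge 0 Vn := hViGe.pow n
  have hVn1 : Vn.coeff 0 = 1 := by rw [hVn, coeff_pow_Ge hViGe, hVi1, one_pow]
  -- logarithmic derivatives
  have hdVn : ∀ d : Derivation ℂ (HahnSeries ℤ B) (HahnSeries ℤ B),
      d Vn = -(n : HahnSeries ℤ B) * (d V * Vi) * Vn := by
    intro d
    have h1 : d Vi = - (d V * Vi * Vi) := by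
      have h2 := congrArg d hVi
      rw [Derivation.leibniz, Derivation.map_one_eq_zero, smul_eq_mul, smul_eq_mul] at h2
      linear_combination Vi * h2 - d Vi * hVi
    rw [hVn]
    clear_value Vn
    have : ∀ m : ℕ, d (Vi ^ m) = -(m : HahnSeries ℤ B) * (d V * Vi) * Vi ^ m := by
      intro m
      induction m with
      | zero => simp
      | succ m ih =>
        rw [pow_succ, Derivation.leibniz, ih, h1, smul_eq_mul, smul_eq_mul]
        push_cast
        ring
    exact this n
  have hdw : ∀ d : Derivation ℂ (HahnSeries ℤ B) (HahnSeries ℤ B),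
      (A : HahnSeries ℤ B) * (d V * Vi) = d w * wi - d (C Q) * C Qi := by
    intro d
    have h1 : w = V ^ A * C Q := by rw [hVA]; linear_combination (-w) * hCQ
    have h3 : d (V ^ A) = (A : HahnSeries ℤ B) * (d V * Vi) * V ^ A := by
      rw [Derivation.leibniz_pow, smul_eq_mul, nsmul_eq_mul]
      obtain ⟨k, hk⟩ : ∃ k, A = k + 1 := ⟨A - 1, by omega⟩
      rw [hk, Nat.add_sub_cancel, pow_succ]
      linear_combination (-((k + 1 : ℕ) : HahnSeries ℤ B) * V ^ k * d V) * hVi
    have h2 : d w = (A : HahnSeries ℤ B) * (d V * Vi) * w + d (C Q) * V ^ A := by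
      conv_lhs => rw [h1]
      rw [Derivation.leibniz, h3, smul_eq_mul, smul_eq_mul]
      linear_combination (-((A : HahnSeries ℤ B) * (d V * Vi))) * h1
    rw [h2]
    have h5 : V ^ A * wi = C Qi := by
      rw [hVA]
      linear_combination C Qi * hwi
    linear_combination (-(A : HahnSeries ℤ B) * (d V * Vi)) * hwi - d (C Q) * h5
  have hsA : algebraMap ℂ (HahnSeries ℤ B) s0 * (A : HahnSeries ℤ B)
      = -(n : HahnSeries ℤ B) := by
    have h1 : (A : HahnSeries ℤ B) = algebraMap ℂ (HahnSeries ℤ B) (A : ℂ) := by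
      rw [map_natCast]
    rw [h1, ← map_mul, hs0, div_mul_cancel₀ _ hAc, map_neg, map_natCast]
  -- the key identity
  have hkey : ∀ (δ' : Derivation ℂ B B) (k : ℤ), hd δ' k Vn
      = (algebraMap ℂ (HahnSeries ℤ B) s0 * (hd δ' k (φ F) * Gi)
        + (k : HahnSeries ℤ B) * (n : HahnSeries ℤ B)
        - algebraMap ℂ (HahnSeries ℤ B) s0 * (C (δ' Q * Qi))) * Vn := by
    intro δ' k
    have h1 : hd δ' k (φ F) * Gi = ((k * A : ℤ) : HahnSeries ℤ B) + hd δ' k w * wi := by
      rw [hwF, Derivation.leibniz, hd_single, smul_eq_mul, smul_eq_mul, hGi]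
      linear_combination (hd δ' k w * wi + ((k * A : ℤ) : HahnSeries ℤ B) * w * wi) * hAA
        + ((k * A : ℤ) : HahnSeries ℤ B) * hwi
    have h2 := hdw (hd δ' k)
    have h3 := hdVn (hd δ' k)
    rw [hd_C] at h2
    rw [h3, h1, map_mul C]
    push_cast
    linear_combination (-(hd δ' k V * Vi) * Vn) * hsA + (algebraMap ℂ (HahnSeries ℤ B) s0 * Vn) * h2
      + (- (k : HahnSeries ℤ B)) * Vn * hsA
  -- the subspace
  let U : Submodule ℂ (HahnSeries ℤ B) :=
    { carrier := {x | ∃ r : B, (Jh x0 δ ξ * x * Vn).coeff n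
        = δ r + algebraMap ℂ B s0 * (δ Q * Qi) * r}
      add_mem' := by
        rintro x y ⟨r1, h1⟩ ⟨r2, h2⟩
        refine ⟨r1 + r2, ?_⟩
        rw [mul_add, add_mul, coeff_add, h1, h2, map_add]
        ring
      zero_mem' := by
        refine ⟨0, ?_⟩
        rw [mul_zero, zero_mul, coeff_zero, map_zero, mul_zero, add_zero]
      smul_mem' := by
        rintro c x ⟨r, h⟩
        refine ⟨c • r, ?_⟩
        rw [mul_smul_comm, smul_mul_assoc, coeff_smul, h, Derivation.map_smul, mul_smul_comm,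
          smul_add] }
  have hmem := hE (HahnSeries ℤ B) φ (DL x0 δ ε ξ Ji) Gi
    (DL_phi x0 δ ε Y ξ hx hε hδY hεY Ji hJi) hGi1 U
    (by
      intro i x
      rcases i with i | j
      · set a := al x0 δ ξ i * x * Vn with ha
        set c := be x0 ξ i * x * Vn with hc
        have hP := piola x0 δ ξ i
        have heq : Jh x0 δ ξ * nab φ (DL x0 δ ε ξ Ji) F Gi s0 (Sum.inl i) x * Vn
            = (hd (0 : Derivation ℂ B B) 1 a - (n : HahnSeries ℤ B) * a)
              + (hd δ 0 c + algebraMap ℂ (HahnSeries ℤ B) s0 * C (δ Q * Qi) * c) := by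
          have k1 := hkey 0 1
          have k2 := hkey δ 0
          rw [nab_apply, DL_x, DL_x, ha, hc]
          rw [Derivation.leibniz _ _ Vn, Derivation.leibniz _ _ x,
            Derivation.leibniz _ _ Vn, Derivation.leibniz _ _ x, k1, k2]
          simp only [smul_eq_mul, Derivation.coe_zero, Pi.zero_apply, zero_mul, map_zero,
            mul_zero, sub_zero, Int.cast_one, Int.cast_zero, one_mul, add_zero]
          linear_combination ((al x0 δ ξ i * hd (0 : Derivation ℂ B B) 1 x
            + be x0 ξ i * hd δ 0 x + algebraMap ℂ (HahnSeries ℤ B) s0 *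
              ((al x0 δ ξ i * hd (0 : Derivation ℂ B B) 1 (φ F) + be x0 ξ i * hd δ 0 (φ F)) * Gi)
                * x) * Vn) * hJi - (x * Vn) * hP
        refine ⟨c.coeff n, ?_⟩
        have ec : (hd (0 : Derivation ℂ B B) 1 a - (n : HahnSeries ℤ B) * a).coeff n = 0 := by
          have h1 : (n : HahnSeries ℤ B) * a = ((n : ℕ) : B) • a := by
            rw [← C_mul_eq_smul, map_natCast]
          rw [coeff_sub, N103.coeff_hd, h1, coeff_smul, Derivation.coe_zero, Pi.zero_apply, smul_eq_mul,
            one_mul, zero_add, Int.cast_natCast, sub_self]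
        have ed : (hd δ 0 c + algebraMap ℂ (HahnSeries ℤ B) s0 * C (δ Q * Qi) * c).coeff n
            = δ (c.coeff n) + algebraMap ℂ B s0 * (δ Q * Qi) * c.coeff n := by
          rw [coeff_add, N103.coeff_hd, algMap_eq, ← map_mul C, C_mul_eq_smul, coeff_smul, smul_eq_mul,
            zero_mul, Int.cast_zero, zero_mul, add_zero]
        rw [heq, coeff_add, ec, ed, zero_add]
      · exact (IsEmpty.false j).elim)
    (by
      intro i p
      refine ⟨0, ?_⟩
      rw [map_zero, mul_zero, add_zero]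
      rcases i with i | j
      · have h1 : Ge ((n : ℤ) + 1) (Jh x0 δ ξ * φ (MvPolynomial.X (Sum.inl i) * p) * Vn) := by
          have h2 : Ge 1 (φ (MvPolynomial.X (Sum.inl i))) := by
            rw [hφ, phi_x]
            exact hord i
          rw [map_mul]
          have h3 := (hJGe.mul (h2.mul (Ge_phi x0 Y ξ p))).mul hVnGe
          simpa using h3
        exact h1 n (by omega)
      · exact (IsEmpty.false j).elim)
    (by
      intro k
      refine ⟨k * A + 1, fun p hp => ⟨0, ?_⟩⟩
      rw [map_zero, mul_zero, add_zero]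
      have hpow : ∀ N : ℕ, ∀ p ∈ mI (Fin 2 ⊕ κ) ℂ ^ N, Ge (N : ℤ) (φ p) := by
        intro N
        induction N with
        | zero =>
          intro p _
          simpa using Ge_phi x0 Y ξ p
        | succ N ih =>
          intro p hp
          rw [pow_succ] at hp
          refine Submodule.mul_induction_on hp (fun u hu v hv => ?_) (fun u v hu hv => ?_)
          · rw [map_mul]
            have h1 : Ge 1 (φ v) := by
              have h2 : ∀ v ∈ mI (Fin 2 ⊕ κ) ℂ, Ge 1 (φ v) := by
                intro v hv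
                unfold mI MvPolynomial.idealOfVars at hv
                refine Submodule.span_induction (p := fun v _ => Ge 1 (φ v)) ?_ ?_ ?_ ?_ hv
                · rintro _ ⟨i, rfl⟩
                  rcases i with i | j
                  · rw [hφ, phi_x]
                    exact hord i
                  · exact (IsEmpty.false j).elim
                · rw [map_zero]
                  exact Ge_zero 1
                · intro x y _ _ hx hy
                  rw [map_add]
                  exact hx.add hy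
                · intro a x _ hx
                  rw [smul_eq_mul, map_mul]
                  simpa using (Ge_phi x0 Y ξ a).mul hx
              exact h2 v hv
            have h3 := (ih u hu).mul h1
            push_cast
            exact h3
          · rw [map_add]
            exact hu.add hv
      have h1 := hpow _ p hp
      have h2 : Ge (-(A : ℤ)) Gi := by
        rw [hGi]
        simpa using (Ge_single (-(A : ℤ)) (1 : B)).mul hwiGe
      have h3 : ∀ k : ℕ, Ge (-(k * A : ℤ)) (Gi ^ k) := by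
        intro k
        induction k with
        | zero => simpa using (Ge_one : Ge 0 (1 : HahnSeries ℤ B))
        | succ k ih =>
          rw [pow_succ]
          have := ih.mul h2
          convert this using 1
          push_cast
          ring
      have h4 := (hJGe.mul (h1.mul (h3 k))).mul hVnGe
      have h5 : (Jh x0 δ ξ * (φ p * Gi ^ k) * Vn).coeff n = 0 := by
        apply h4 n
        push_cast
        omega
      exact h5)
  obtain ⟨r, hr⟩ := hmem
  have h1 : (Jh x0 δ ξ * φ 1 * Vn).coeff n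
      = Polynomial.aeval x0 (res0 Jp) := by
    have h2 : Jh x0 δ ξ * φ 1 * Vn = Jh x0 δ ξ * Vn := by
      rw [map_one φ]
      ring
    have h3 := coeff_mul_Ge hJGe hVnGe
    rw [add_zero, hJco, hVn1, mul_one] at h3
    rw [h2, h3]
  rw [h1] at hr
  exact ⟨r, hr.symm⟩

end Engine

end Pool.Agent.J4H50.YO
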