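import Pool.Agent.J4H50.YO.CuA

set_option autoImplicit false
set_option linter.unusedSectionVars false
set_option linter.unusedVariables false

/-! # Without de Rham functional -/

namespace Pool.Agent.J4H50.YO

open Pool.Agent.N103 Pool.Agent.N103.V Pool.Agent.J4H50.TF
open Pool.Agent.J4H50.IG (mI mem_m_iff)
open MvPolynomial (pderiv)

theorem evp_of {σ : Type} [Finite σ] (F : MvPolynomial σ ℂ) (s : ℂ)
    (h : ¬ NV (F : MvPowerSeries σ ℂ) s) : Evp F s := by
  intro L _ _ φ D Gi hD hG U hU1 hU2 hU3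
  by_contra h1
  apply h
  obtain ⟨lam0, hlam0, hker⟩ := Submodule.exists_le_ker_of_notMem h1
  set lam : L →ₗ[ℂ] ℂ := (lam0 (φ 1))⁻¹ • lam0 with hlam
  have hl1 : lam (φ 1) = 1 := by
    rw [hlam, LinearMap.smul_apply, smul_eq_mul, inv_mul_cancel₀ hlam0]
  have hlU : ∀ x ∈ U, lam x = 0 := by
    intro x hx
    rw [hlam, LinearMap.smul_apply, LinearMap.mem_ker.1 (hker hx), smul_zero]
  choose N hN using hU3
  set α : ℕ → MvPowerSeries σ ℂ →ₗ[ℂ] ℂ := fun k =>
    lam.comp ((LinearMap.mulRight ℂ (Gi ^ k)).comp (φ.toLinearMap.comp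
      (MvPowerSeries.truncTotal (N k + 1)))) with hα
  have hαa : ∀ k q, α k q = lam (φ (tr (N k + 1) q) * Gi ^ k) := fun k q => rfl
  have key : ∀ k (q : MvPowerSeries σ ℂ) (p : MvPolynomial σ ℂ),
      (∀ x : σ →₀ ℕ, x.degree < N k + 1 → MvPowerSeries.coeff x q = p.coeff x) →
      α k q = lam (φ p * Gi ^ k) := by
    intro k q p hqp
    have h2 : tr (N k + 1) q - p ∈ mI σ ℂ ^ N k :=
      mem_iff.2 fun x hx => by rw [coeff_tr _ (by omega), hqp x (by omega)]
    have h3 := hlU _ (hN k _ h2)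
    rw [map_sub, sub_mul, map_sub, sub_eq_zero] at h3
    rw [hαa, h3]
  have hGk : ∀ k, φ F * Gi ^ (k + 1) = Gi ^ k := by
    intro k
    rw [pow_succ']
    linear_combination (Gi ^ k) * hG
  refine ⟨α, ⟨?_, ?_, ?_⟩, ?_⟩
  · intro k
    refine ⟨N k + 1, fun q hq => ?_⟩
    rw [key k q 0 (fun x hx => by rw [hq x hx, MvPolynomial.coeff_zero]), map_zero, zero_mul,
      map_zero]
  · intro k q
    set M := max (N k + 1) (N (k + 1) + 1) with hM
    have e1 : α (k + 1) ((F : MvPowerSeries σ ℂ) * q) = lam (φ (F * tr M q) * Gi ^ (k + 1)) := by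
      refine key (k + 1) _ _ fun x hx => ?_
      have h2 := tr_mul M (F : MvPowerSeries σ ℂ) q
      have hxM : x.degree < M := lt_of_lt_of_le hx (le_max_right _ _)
      have h3 := mem_iff.1 h2 x hxM
      rw [coeff_tr _ hxM] at h3
      rw [← h3]
      have h4 : (tr M (F : MvPowerSeries σ ℂ) - F) * tr M q ∈ mI σ ℂ ^ M :=
        Ideal.mul_mem_right _ _ (tr_coe M F)
      rw [sub_mul] at h4
      exact mem_iff.1 h4 x hxM
    have e2 : α k q = lam (φ (tr M q) * Gi ^ k) := by
      refine key k _ _ fun x hx => ?_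
      rw [coeff_tr _ (lt_of_lt_of_le hx (le_max_left _ _))]
    rw [e1, e2, map_mul φ, ← hGk k]
    congr 1
    ring
  · intro k i q
    set M := max (N k + 1) (N (k + 1) + 1) with hM
    have e1 : α k (MvPowerSeries.pderiv ℂ i q) = lam (φ (pderiv i (tr (M + 1) q)) * Gi ^ k) := by
      refine key k _ _ fun x hx => ?_
      have hxM : x.degree < M := lt_of_lt_of_le hx (le_max_left _ _)
      have h3 := mem_iff.1 (tr_pd M i q) x hxM
      rw [coeff_tr _ hxM] at h3
      exact h3.symm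
    have e2 : α (k + 1) (MvPowerSeries.pderiv ℂ i (F : MvPowerSeries σ ℂ) * q)
        = lam (φ (pderiv i F * tr (M + 1) q) * Gi ^ (k + 1)) := by
      refine key (k + 1) _ _ fun x hx => ?_
      have hxM : x.degree < M := lt_of_lt_of_le hx (le_max_right _ _)
      have h5 : MvPowerSeries.pderiv ℂ i (F : MvPowerSeries σ ℂ) =
          ((pderiv i F : MvPolynomial σ ℂ) : MvPowerSeries σ ℂ) := MvPowerSeries.pderiv_coe _
      rw [h5]
      have h2 := tr_mul M ((pderiv i F : MvPolynomial σ ℂ) : MvPowerSeries σ ℂ) q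
      have h3 := mem_iff.1 h2 x hxM
      rw [coeff_tr _ hxM] at h3
      rw [← h3]
      have h4 : (tr M ((pderiv i F : MvPolynomial σ ℂ) : MvPowerSeries σ ℂ) - pderiv i F) *
          tr M q ∈ mI σ ℂ ^ M := Ideal.mul_mem_right _ _ (tr_coe M _)
      have h6 : pderiv i F * (tr (M + 1) q - tr M q) ∈ mI σ ℂ ^ M :=
        Ideal.mul_mem_left _ _ (tr_tr (by omega) q)
      have h7 := Ideal.sub_mem _ h4 h6
      have h8 : (tr M ((pderiv i F : MvPolynomial σ ℂ) : MvPowerSeries σ ℂ) - pderiv i F) *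
          tr M q - pderiv i F * (tr (M + 1) q - tr M q) =
          tr M ((pderiv i F : MvPolynomial σ ℂ) : MvPowerSeries σ ℂ) * tr M q -
            pderiv i F * tr (M + 1) q := by ring
      rw [h8] at h7
      exact mem_iff.1 h7 x hxM
    have e3 := hlU _ (hU1 i (φ (tr (M + 1) q) * Gi ^ k))
    rw [nab_apply, Derivation.leibniz, hD, D_Gi_pow φ D F Gi hG, hD, smul_eq_mul, smul_eq_mul] at e3
    have e4 : (s - (k : ℂ)) * lam (φ (pderiv i F * tr (M + 1) q) * Gi ^ (k + 1)) =
        lam ((s - (k : ℂ)) • (φ (pderiv i F * tr (M + 1) q) * Gi ^ (k + 1))) := by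
      rw [map_smul, smul_eq_mul]
    rw [e1, e2, e4, ← map_add, ← e3]
    congr 1
    rw [Algebra.smul_def, map_sub, map_natCast, map_mul φ, pow_succ]
    ring
  · intro q
    set c := MvPowerSeries.constantCoeff q with hc
    rw [key 0 q (tr (N 0 + 1) q) (fun x hx => by rw [coeff_tr _ hx]), pow_zero, mul_one]
    have h2 : tr (N 0 + 1) q - MvPolynomial.C c ∈ mI σ ℂ := by
      rw [mem_m_iff, map_sub, MvPolynomial.constantCoeff_C, MvPolynomial.constantCoeff_eq,
        coeff_tr _ (by simp), hc, MvPowerSeries.coeff_zero_eq_constantCoeff_apply, sub_self]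
    have h3 : ∀ r ∈ mI σ ℂ, ∀ a, φ (a * r) ∈ U := by
      intro r hr
      unfold mI MvPolynomial.idealOfVars at hr
      refine Submodule.span_induction (p := fun v _ => ∀ a, φ (a * v) ∈ U) ?_ ?_ ?_ ?_ hr
      · rintro _ ⟨i, rfl⟩ a
        rw [mul_comm]
        exact hU2 i a
      · intro a
        rw [mul_zero, map_zero]
        exact U.zero_mem
      · intro x y _ _ hx hy a
        rw [mul_add, map_add]
        exact U.add_mem (hx a) (hy a)
      · intro b x _ hx a
        rw [smul_eq_mul, ← mul_assoc]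
        exact hx (a * b)
    have h4 := hlU _ (h3 _ h2 1)
    rw [one_mul] at h4
    rw [map_sub, map_sub, sub_eq_zero] at h4
    rw [h4]
    have h5 : φ (MvPolynomial.C c) = c • φ 1 := by
      rw [← map_smul, MvPolynomial.smul_eq_C_mul, mul_one]
    rw [h5, map_smul, hl1, smul_eq_mul, mul_one]

end Pool.Agent.J4H50.YO
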