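import Pool.Agent.J4H50.YO.CuB

set_option autoImplicit false
set_option linter.unusedSectionVars false
set_option linter.unusedVariables false
set_option linter.unusedSimpArgs false

/-! # The differential equation on an exceptional curve -/

namespace Pool.Agent.J4H50.YO

attribute [-instance] HahnSeries.powerSeriesAlgebra

open Pool.Agent.W574.SM Pool.Agent.N103 Pool.Agent.N103.V

section Star

variable {κ : Type} [Fintype κ] [DecidableEq κ] [IsEmpty κ] {K : Type} [Field K] [Algebra ℂ K]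

theorem star3 (h : MP) (f : Option κ → MP) (a : ℕ) (c : κ → ℂ) (hF : FF h f a ≠ 0)
    (ξ : Fin 2 → MP) (hξ : ∀ i, res0 (ξ i) = 0)
    (n : ℕ) (hn : 1 ≤ n) (Jp : MP) (hJ : jac ξ = MvPolynomial.X 0 ^ (n - 1) * Jp)
    (b0 c0 : ℕ) (Hh G : MP)
    (hh : MvPolynomial.aeval ξ h = MvPolynomial.X 0 ^ b0 * Hh)
    (hf : MvPolynomial.aeval ξ (fc c f none) = MvPolynomial.X 0 ^ c0 * G)
    (A : ℕ) (hA : A = b0 + a * c0) (hA1 : 1 ≤ A) (hE : Evp (FF h f a) (-(n : ℂ) / A))
    (D : Derivation ℂ K K) (x : K) (hDx : D x = 1)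
    (hJx : Polynomial.aeval x (res0 Jp) ≠ 0) (hHx : Polynomial.aeval x (res0 Hh) ≠ 0)
    (hGx : Polynomial.aeval x (res0 G) ≠ 0) :
    ∃ r : K, D r + algebraMap ℂ K (-(n : ℂ) / A) *
      (D (Polynomial.aeval x (res0 Hh) * Polynomial.aeval x (res0 G) ^ a) *
        (Polynomial.aeval x (res0 Hh) * Polynomial.aeval x (res0 G) ^ a)⁻¹) * r =
      Polynomial.aeval x (res0 Jp) := by
  set Y : κ → K := fun j => (IsEmpty.false j).elim with hY
  set ε : κ → Derivation ℂ K K := fun j => (IsEmpty.false j).elim with hε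
  set q0 := Polynomial.aeval x (res0 Hh) * Polynomial.aeval x (res0 G) ^ a with hq0
  have hq0n : q0 ≠ 0 := mul_ne_zero hHx (pow_ne_zero _ hGx)
  set w : HahnSeries ℤ K := N103.emb x Hh * N103.emb x G ^ a with hw
  have hwGe : Ge 0 w := by simpa using (Ge_emb x Hh).mul ((Ge_emb x G).pow a)
  have hlin : lin f = MvPolynomial.rename Sum.inl (f none) := by
    rw [lin, Finset.univ_eq_empty, Finset.sum_empty, add_zero]
  have hfc : fc c f none = f none := by
    rw [fc, Finset.univ_eq_empty, Finset.sum_empty, add_zero]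
  rw [hfc] at hf
  have hwF : phi x Y ξ (FF h f a) = HahnSeries.single (A : ℤ) 1 * w := by
    rw [FF, hlin, map_mul, map_pow, phi_rename, phi_rename, hh, hf, map_mul, map_pow, map_mul,
      map_pow, emb_X0, mul_pow, HahnSeries.single_pow, HahnSeries.single_pow,
      HahnSeries.single_pow, hw]
    simp only [one_pow, nsmul_eq_mul, smul_eq_mul, mul_one]
    have h6 : (HahnSeries.single ((b0 : ℕ) : ℤ) (1 : K)) * HahnSeries.single ((a : ℤ) * (c0 : ℤ)) 1
        = HahnSeries.single (A : ℤ) 1 := by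
      rw [HahnSeries.single_mul_single, one_mul, hA]
      push_cast
      rfl
    rw [← h6]
    ring
  have hwc : w.coeff 0 = q0 := by
    have h8 := coeff_mul_Ge (Ge_emb x Hh) ((Ge_emb x G).pow a)
    rw [add_zero, coeff_pow_Ge (Ge_emb x G), N103.coeff_emb, N103.coeff_emb] at h8
    rw [hw, h8]
  have hord : ∀ i, Ge 1 (N103.emb x (ξ i)) := by
    intro i g hg
    rcases lt_or_eq_of_le (Int.le_of_lt_add_one (by omega : g < 0 + 1)) with h1 | h1
    · exact Ge_emb x (ξ i) g h1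
    · rw [h1, N103.coeff_emb, hξ, map_zero]
  exact engine3 x D ε Y ξ hDx (fun j => (IsEmpty.false j).elim) (fun j => (IsEmpty.false j).elim)
    (fun j => (IsEmpty.false j).elim) (fun j => (IsEmpty.false j).elim)
    (FF h f a) n hn Jp hJ (isUnit_iff_ne_zero.2 hJx) A hA1 w hwGe hwF q0 q0⁻¹ hwc
    (mul_inv_cancel₀ hq0n) hE hord

end Star

open Polynomial

section Blow

variable {κ : Type} [Fintype κ] [DecidableEq κ] [IsEmpty κ]
variable {h : MP} {f : Option κ → MP} {a : ℕ} {c : κ → ℂ}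
  {h' : MP} {g : Option κ → MP} {a0 n0 a1 n1 : ℕ}

/-- the rational solution on a critical exceptional curve -/
theorem blow_sol3 (hF : FF h f a ≠ 0) (ha : 1 ≤ a)
    (G : GeomD h f a c 0 h' g a0 n0 a1 n1) (hn0 : 1 ≤ n0) (hn1 : 1 ≤ n1) (mh mg : ℕ)
    (hm : 1 ≤ mh + a * mg) (h0 : MP) (g0 : Option κ → MP)
    (hh0 : MvPolynomial.aeval (chart 0) h' = MvPolynomial.X 0 ^ mh * h0)
    (hg0 : ∀ j, MvPolynomial.aeval (chart 0) (g j) = MvPolynomial.X 0 ^ mg * g0 j)
    (hPh : res0 h0 ≠ 0) (ht : res0 (g0 none) ≠ 0)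
    (hE : Evp (FF h f a) (-((n0 + n1 : ℕ) : ℂ) / ((a0 + a1 + (mh + a * mg) : ℕ) : ℂ))) :
    ∃ (β : ℂ) (A : ℂ[X]), β ≠ 0 ∧ A ≠ 0 ∧
        (X ^ a1 * (res0 h0 * res0 (g0 none) ^ a)) * derivative A
          + C (-((n0 + n1 : ℕ) : ℂ) / ((a0 + a1 + (mh + a * mg) : ℕ) : ℂ)) *
            derivative (X ^ a1 * (res0 h0 * res0 (g0 none) ^ a)) * A
          = C β * X ^ (n1 - 1) * (X ^ a1 * (res0 h0 * res0 (g0 none) ^ a)) := by
  classical
  set AA := a0 + a1 + (mh + a * mg) with hAA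
  set n := n0 + n1 with hn
  set Ph := res0 h0 with hPhd
  set P : Option κ → ℂ[X] := fun j => res0 (g0 j) with hP
  set wh := MvPolynomial.constantCoeff G.Wh with hwh
  set wf := MvPolynomial.constantCoeff G.Wf with hwf
  set w' := MvPolynomial.constantCoeff G.W' with hw'
  set Hh : MP := MvPolynomial.X 1 ^ G.b1 * MvPolynomial.aeval (chart 0) G.Wh * h0 with hHh
  set Gj : Option κ → MP := fun j =>
    MvPolynomial.X 1 ^ G.c1 * MvPolynomial.aeval (chart 0) G.Wf * g0 j with hGj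
  set Jp : MP := MvPolynomial.X 1 ^ (n1 - 1) * MvPolynomial.aeval (chart 0) G.W' with hJp
  have eh : MvPolynomial.aeval (fun i => MvPolynomial.aeval (chart 0) (G.ξ i)) h
      = MvPolynomial.X 0 ^ (G.b0 + G.b1 + mh) * Hh := by
    rw [chart_eh G mh 0 h0 hh0, map_zero, add_zero]
  have ef : ∀ j, MvPolynomial.aeval (fun i => MvPolynomial.aeval (chart 0) (G.ξ i)) (fc c f j)
      = MvPolynomial.X 0 ^ (G.c0 + G.c1 + mg) * Gj j := by
    intro j
    rw [chart_ef G mg 0 g0 hg0, map_zero, add_zero]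
  have eJ : jac (fun i => MvPolynomial.aeval (chart 0) (G.ξ i))
      = MvPolynomial.X 0 ^ (n - 1) * Jp := by
    rw [chart_eJ G hn0 hn1 0, map_zero, add_zero]
  have rH : res0 Hh = C wh * (X ^ G.b1 * Ph) := by
    rw [hHh, map_mul, map_mul, map_pow, res0_X1, res0_chart_const]
    ring
  have rG : ∀ j, res0 (Gj j) = C wf * (X ^ G.c1 * P j) := by
    intro j
    rw [hGj]
    simp only
    rw [map_mul, map_mul, map_pow, res0_X1, res0_chart_const]
    ring
  have rJ : res0 Jp = C w' * X ^ (n1 - 1) := by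
    rw [hJp, map_mul, map_pow, res0_X1, res0_chart_const]
    ring
  have hAc : 1 ≤ AA := by omega
  have hn1' : 1 ≤ n := by omega
  have ea0 := G.ea0
  have ea1 := G.ea1
  have hAe : AA = (G.b0 + G.b1 + mh) + a * (G.c0 + G.c1 + mg) := by
    rw [Nat.mul_add, Nat.mul_add]
    omega
  have hgne : Polynomial.aeval (RatFunc.X : RatFunc ℂ) (res0 (Gj none)) ≠ 0 := by
    rw [aeval_X_ratFunc, rG]
    exact am_ne (mul_ne_zero (C_ne_zero.2 G.hWf) (mul_ne_zero (pow_ne_zero _ X_ne_zero) ht))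
  obtain ⟨R, hR⟩ := star3 h f a c hF (fun i => MvPolynomial.aeval (chart 0) (G.ξ i))
    (fun i => by
      have := chart_eK G 0 i
      rw [this]
      simp) n hn1' Jp eJ (G.b0 + G.b1 + mh) (G.c0 + G.c1 + mg) Hh (Gj none) eh (ef none) AA hAe
    hAc hE dR RatFunc.X (by rw [← RatFunc.algebraMap_X, dR_algebraMap, derivative_X, map_one])
    (by
      rw [aeval_X_ratFunc, rJ]
      exact am_ne (mul_ne_zero (C_ne_zero.2 G.hW') (pow_ne_zero _ X_ne_zero)))
    (by
      rw [aeval_X_ratFunc, rH]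
      exact am_ne (mul_ne_zero (C_ne_zero.2 G.hWh) (mul_ne_zero (pow_ne_zero _ X_ne_zero) hPh)))
    hgne
  set Q : ℂ[X] := X ^ a1 * (Ph * P none ^ a) with hQ
  have hQ0 : Q ≠ 0 := mul_ne_zero (pow_ne_zero _ X_ne_zero) (mul_ne_zero hPh (pow_ne_zero _ ht))
  have hw0 : wh * wf ^ a ≠ 0 := mul_ne_zero G.hWh (pow_ne_zero _ G.hWf)
  have hR' : dR R + algebraMap ℂ (RatFunc ℂ) (-(n : ℂ) / AA) *
      (dR (algebraMap ℂ[X] (RatFunc ℂ) Q) * (algebraMap ℂ[X] (RatFunc ℂ) Q)⁻¹) * R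
        = algebraMap ℂ[X] (RatFunc ℂ) (C w' * X ^ (n1 - 1)) := by
    have e1 : Polynomial.aeval (RatFunc.X : RatFunc ℂ) (res0 Jp)
        = algebraMap ℂ[X] (RatFunc ℂ) (C w' * X ^ (n1 - 1)) := by
      rw [aeval_X_ratFunc, rJ]
    have e2 : Polynomial.aeval (RatFunc.X : RatFunc ℂ) (res0 Hh)
        * Polynomial.aeval (RatFunc.X : RatFunc ℂ) (res0 (Gj none)) ^ a
        = algebraMap ℂ (RatFunc ℂ) (wh * wf ^ a) * algebraMap ℂ[X] (RatFunc ℂ) Q := by
      have e3 : algebraMap ℂ (RatFunc ℂ) (wh * wf ^ a)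
        = algebraMap ℂ[X] (RatFunc ℂ) (C (wh * wf ^ a)) := rfl
      have hXa : (X : ℂ[X]) ^ a1 = X ^ G.b1 * (X ^ G.c1) ^ a := by
        rw [← pow_mul', ← pow_add]
        exact congrArg (fun n => (X : ℂ[X]) ^ n) ea1
      rw [aeval_X_ratFunc, aeval_X_ratFunc, ← map_pow, ← map_mul, e3, ← map_mul, rH, rG, hQ, hXa]
      congr 1
      simp only [map_mul, map_pow]
      ring
    rw [← e1, ← hR, e2]
    congr 3
    rw [Derivation.leibniz, Derivation.map_algebraMap, smul_zero, add_zero, smul_eq_mul]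
    have hwne : algebraMap ℂ (RatFunc ℂ) (wh * wf ^ a) ≠ 0 := by
      rw [Ne, map_eq_zero]; exact hw0
    have hQne := am_ne hQ0
    field_simp
  obtain ⟨A, hAne, hAeq⟩ := sol_poly Q hQ0 n AA hAc w' G.hW' (n1 - 1) R hR'
  exact ⟨w', A, G.hW', hAne, hAeq⟩

end Blow

end Pool.Agent.J4H50.YO
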