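import Pool.Agent.J4H50.YO.CuC
import Pool.Agent.N103.V.GoodA

set_option autoImplicit false
set_option linter.unusedSectionVars false
set_option linter.unusedVariables false
set_option linter.unusedSimpArgs false

/-! # The poles of the contribution of a point of the plane -/

namespace Pool.Agent.J4H50.YO

attribute [-instance] HahnSeries.powerSeriesAlgebra

open Pool.Agent.W574.SM Pool.Agent.N103 Pool.Agent.N103.V
open Polynomial

section Node

/-- the geometry of a node -/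
abbrev GD (h h' : MP) (a0 n0 a1 n1 : ℕ) : Type :=
  GeomD h (fun _ : Option Empty => (1 : MP)) 1 Empty.elim 0 h' (fun _ => 1) a0 n0 a1 n1

variable {h h' : MP} {a0 n0 a1 n1 : ℕ}

theorem blow3 (hF : FF h (fun _ : Option Empty => (1 : MP)) 1 ≠ 0) (G : GD h h' a0 n0 a1 n1)
    (hn0 : 1 ≤ n0) (hn1 : 1 ≤ n1) (m : ℕ) (hm : 1 ≤ m) (hc : ℂ → MP) (hI : MP)
    (hhc : ∀ z, MvPolynomial.aeval (chart z) h' = MvPolynomial.X 0 ^ m * hc z)
    (hhI : MvPolynomial.aeval chartI h' = MvPolynomial.X 1 ^ m * hI)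
    (S : Finset ℂ) (h0S : 0 ∈ S) (hS : ∀ z ∉ S, MvPolynomial.constantCoeff (hc z) ≠ 0)
    (hJ1 : (n0 - 1) * m ≤ a0 ∧ (n1 - 1) * m ≤ a1)
    (hJ2 : 0 < a0 → (n0 - 1) * a1 < a0 * n1) (hJ2' : 0 < a1 → (n1 - 1) * a0 < a1 * n0)
    (hz0 : a0 = 0 → n0 = 1) (hz1 : a1 = 0 → n1 = 1) (s0 : ℂ)
    (hE : Evp (FF h (fun _ : Option Empty => (1 : MP)) 1) s0)
    (hA : ((n0 + n1 : ℕ) : ℂ) + ((a0 + a1 + m : ℕ) : ℂ) * s0 = 0) :
    ∃ (μ : ℂ → ℕ) (μI : ℕ), (∀ z, OrdP (res0 (hc z)) (μ z)) ∧ OrdP (res1 hI) μI ∧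
      (n1 : ℂ) + s0 * ((a1 + μ 0 : ℕ) : ℂ) ≠ 0 ∧ (n0 : ℂ) + s0 * ((a0 + μI : ℕ) : ℂ) ≠ 0 ∧
      (∀ z, z ≠ 0 → 1 + s0 * (μ z : ℂ) ≠ 0) ∧
      ∃ u1 k1 u2 k2 : ℕ, u1 + u2 = a0 + a1 + m ∧ k1 + k2 = n0 + n1 ∧ 1 ≤ k1 ∧
        1 ≤ k2 ∧ (u1 = 0 → k1 = 1) ∧ (u2 = 0 → k2 = 1) ∧ (k1 : ℂ) + s0 * (u1 : ℂ) ≠ 0 ∧
        (k2 : ℂ) + s0 * (u2 : ℂ) ≠ 0 ∧
        ∀ (R : Type) [CommRing R] (Φ : ℕ → ℕ → R) (ell : R), Φ 0 1 = 1 →
          Φ (a0 + μI) n0 + Φ (a1 + μ 0) n1 +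
            ∑ z ∈ S.erase 0, Φ (μ z) 1 + (ell - S.card)
          = Φ u1 k1 + Φ u2 k2 + (ell - 1) := by
  classical
  set AA := a0 + a1 + m with hAA
  set n := n0 + n1 with hn
  have hapos : 0 < AA := by omega
  have hac : (AA : ℂ) ≠ 0 := Nat.cast_ne_zero.2 hapos.ne'
  have hs : s0 = -(n : ℂ) / AA := by
    rw [eq_div_iff hac]
    linear_combination hA
  have hhz : ∀ z, res0 (hc z) = (res0 (hc 0)).comp (X + C z) := fun z =>
    res0_chart h' (hc 0) (hc z) m z (hhc 0) (hhc z)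
  have hcc : ∀ z, (res0 (hc 0)).eval z = MvPolynomial.constantCoeff (hc z) := by
    intro z
    rw [← coeff_res0, hhz z, coeff_zero_eq_eval_zero, eval_comp]
    simp
  set P := res0 (hc 0) with hP
  have hPS : ∀ z ∉ S, P.eval z ≠ 0 := by
    intro z hz
    rw [hcc]
    exact hS z hz
  obtain ⟨z1, hz1S⟩ := Infinite.exists_notMem_finset S
  have hPne : P ≠ 0 := by
    intro h0
    apply hPS z1 hz1S
    rw [h0, eval_zero]
  have hg1 : res0 ((fun _ : Option Empty => (1 : MP)) none) ≠ 0 := by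
    rw [map_one]
    exact one_ne_zero
  obtain ⟨β, A, hβ, hAne, hAeq⟩ := blow_sol3 hF le_rfl G hn0 hn1 m 0 (by omega) (hc 0)
    (fun _ => 1) (hhc 0) (fun j => by rw [map_one, pow_zero, mul_one]) hPne hg1
    (by
      show Evp _ (-((n0 + n1 : ℕ) : ℂ) / ((a0 + a1 + m : ℕ) : ℂ))
      rw [← hn, ← hAA, ← hs]
      exact hE)
  have hAeq' : (X ^ a1 * P) * derivative A + C s0 * derivative (X ^ a1 * P) * A
      = C β * X ^ (n1 - 1) * (X ^ a1 * P) := by
    have h2 : (((n0 + n1 : ℕ) : ℂ)) = (n : ℂ) := rfl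
    have h3 : ((a0 + a1 + (m + 1 * 0) : ℕ) : ℂ) = (AA : ℂ) := by
      rw [Nat.mul_zero, Nat.add_zero]
    rw [h3, ← hs, map_one, one_pow, mul_one] at hAeq
    exact hAeq
  have hdeg := coeff_resI h' (hc 0) hI m (hhc 0) hhI
  rw [← hP] at hdeg
  have hbr := Pool.Agent.W574.MO.bracketM P hPne m a0 n0 a1 n1 hdeg.1 hm hn0 hn1 S h0S hPS (by
      intro h
      by_cases ha1 : 0 < a1
      · have h1 := hJ2' ha1
        have h2 := hJ1.2
        have h3 : (n1 - 1) * AA = (n1 - 1) * a0 + (n1 - 1) * a1 + (n1 - 1) * m := by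
          rw [hAA]; ring
        have h4 : (n1 - 1) * a1 + a1 = a1 * n1 := by
          have : n1 = (n1 - 1) + 1 := by omega
          conv_rhs => rw [this]
          ring
        have h5 : n * (a1 + P.rootMultiplicity 0)
            = a1 * n0 + a1 * n1 + n * P.rootMultiplicity 0 := by
          rw [hn]; ring
        have h6 : 0 ≤ n * P.rootMultiplicity 0 := Nat.zero_le _
        show (n1 - 1) * AA < n * (a1 + P.rootMultiplicity 0)
        omega
      · have h1 : a1 = 0 := by omega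
        have h2 := hz1 h1
        rw [h2, Nat.sub_self, zero_mul]
        exact Nat.mul_pos (by omega) h) hz1 (by
      intro h
      by_cases ha0 : 0 < a0
      · have h1 := hJ2 ha0
        have h2 := hJ1.1
        have h3 : (n0 - 1) * AA = (n0 - 1) * a0 + (n0 - 1) * a1 + (n0 - 1) * m := by
          rw [hAA]; ring
        have h4 : (n0 - 1) * a0 + a0 = a0 * n0 := by
          have : n0 = (n0 - 1) + 1 := by omega
          conv_rhs => rw [this]
          ring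
        have h5 : n * (a0 + (m - P.natDegree))
            = a0 * n0 + a0 * n1 + n * (m - P.natDegree) := by
          rw [hn]; ring
        have h6 : 0 ≤ n * (m - P.natDegree) := Nat.zero_le _
        show (n0 - 1) * AA < n * (a0 + (m - P.natDegree))
        omega
      · have h1 : a0 = 0 := by omega
        have h2 := hz0 h1
        rw [h2, Nat.sub_self, zero_mul]
        exact Nat.mul_pos (by omega) h) hz0 β hβ A hAne s0 hs hAeq'
  refine ⟨fun z => P.rootMultiplicity z, m - P.natDegree, ?_, ?_, hbr.1, hbr.2.1,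
    hbr.2.2.1, hbr.2.2.2⟩
  · intro z
    have h1 := ord_comp P hPne z
    rw [hhz]
    exact h1
  · constructor
    · intro k hk
      rw [hdeg.2.2 k (by omega), coeff_eq_zero_of_natDegree_lt (by omega)]
    · rw [hdeg.2.2 _ (by omega)]
      have h3 : m - (m - P.natDegree) = P.natDegree := by
        have := hdeg.1
        omega
      rw [h3]
      exact leadingCoeff_ne_zero.2 hPne

/-- the induction hypothesis at a node -/
structure Inv3 (h : MP) (s0 : ℂ) (h' : MP) (a0 n0 a1 n1 : ℕ) : Prop where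
  geom : Nonempty (GD h h' a0 n0 a1 n1)
  hn0 : 1 ≤ n0
  hn1 : 1 ≤ n1
  hz0 : a0 = 0 → n0 = 1
  hz1 : a1 = 0 → n1 = 1
  hJ1 : ∀ m, IsMult (fun _ : Unit => h') m → (n0 - 1) * m ≤ a0 ∧ (n1 - 1) * m ≤ a1
  hJ2 : 0 < a0 → (n0 - 1) * a1 < a0 * n1
  hJ2' : 0 < a1 → (n1 - 1) * a0 < a1 * n0
  hH0 : (n0 : ℂ) + a0 * s0 = 0 → ∀ μ, OrdP (res0 h') μ → (n1 : ℂ) + s0 * ((a1 + μ : ℕ) : ℂ) ≠ 0
  hH1 : (n1 : ℂ) + a1 * s0 = 0 → ∀ μ, OrdP (res1 h') μ → (n0 : ℂ) + s0 * ((a0 + μ : ℕ) : ℂ) ≠ 0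

variable {R : Type} [CommRing R]

/-- the conclusion at a node -/
def Good3 (D : Subring R) (s0 : ℂ) (Φ : ℕ → ℕ → R) (h' : MP) (a0 n0 a1 n1 : ℕ) (Z : R) : Prop :=
  ∃ c0 ∈ D, ∃ c1 ∈ D,
    ((n0 : ℂ) + a0 * s0 = 0 → ∀ μ, OrdP (res0 h') μ → c0 = Φ (a1 + μ) n1) ∧
    ((n1 : ℂ) + a1 * s0 = 0 → ∀ μ, OrdP (res1 h') μ → c1 = Φ (a0 + μ) n0) ∧
    Z - c0 * Φ a0 n0 - c1 * Φ a1 n1 ∈ D

variable {s0 : ℂ} {D : Subring R} {Φ : ℕ → ℕ → R} {l : R}

theorem OrdP_res1_cc {W : MP} (hW : MvPolynomial.constantCoeff W ≠ 0) : OrdP (res1 W) 0 := by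
  rw [← res0_sw]
  exact OrdP_of_cc (by rwa [cc_sw])

theorem unit3 (hD : ZData D s0 Φ l) (inv : Inv3 h s0 h' a0 n0 a1 n1)
    (hh : MvPolynomial.constantCoeff h' ≠ 0) :
    Good3 D s0 Φ h' a0 n0 a1 n1 (Φ a0 n0 * Φ a1 n1) := by
  have o0 : OrdP (res0 h') 0 := OrdP_of_cc hh
  have o1 : OrdP (res1 h') 0 := OrdP_res1_cc hh
  by_cases hA0 : (n0 : ℂ) + a0 * s0 = 0
  · have hA1 := inv.hH0 hA0 0 o0
    rw [add_zero, mul_comm] at hA1
    refine ⟨Φ a1 n1, hD.reg a1 n1 inv.hn1 hA1, 0, D.zero_mem, fun _ μ hμ => ?_,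
      fun h => absurd h hA1, ?_⟩
    · rw [← o0.unique hμ, add_zero]
    · have : Φ a0 n0 * Φ a1 n1 - Φ a1 n1 * Φ a0 n0 - 0 * Φ a1 n1 = 0 := by ring
      rw [this]
      exact D.zero_mem
  · by_cases hA1 : (n1 : ℂ) + a1 * s0 = 0
    · refine ⟨0, D.zero_mem, Φ a0 n0, hD.reg a0 n0 inv.hn0 hA0, fun h => absurd h hA0,
        fun _ μ hμ => ?_, ?_⟩
      · rw [← o1.unique hμ, add_zero]
      · have : Φ a0 n0 * Φ a1 n1 - 0 * Φ a0 n0 - Φ a0 n0 * Φ a1 n1 = 0 := by ring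
        rw [this]
        exact D.zero_mem
    · refine ⟨0, D.zero_mem, 0, D.zero_mem, fun h => absurd h hA0, fun h => absurd h hA1, ?_⟩
      rw [zero_mul, zero_mul, sub_zero, sub_zero]
      exact D.mul_mem (hD.reg a0 n0 inv.hn0 hA0) (hD.reg a1 n1 inv.hn1 hA1)

theorem curveV3 (hD : ZData D s0 Φ l) (h11 : Φ 1 1 ∈ D) (inv : Inv3 h s0 h' a0 n0 0 1)
    (h0 : MvPolynomial.constantCoeff h' = 0)
    (h1 : MvPolynomial.constantCoeff (MvPolynomial.pderiv 1 h') ≠ 0) :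
    Good3 D s0 Φ h' a0 n0 0 1 (Φ a0 n0 * Φ 1 1) := by
  have o0 : OrdP (res0 h') 1 := OrdP_curve h0 h1
  have hA1 : ((1 : ℕ) : ℂ) + ((0 : ℕ) : ℂ) * s0 ≠ 0 := by simp
  by_cases hA0 : (n0 : ℂ) + a0 * s0 = 0
  · refine ⟨Φ 1 1, h11, 0, D.zero_mem, fun _ μ hμ => ?_, fun h => absurd h hA1, ?_⟩
    · rw [← o0.unique hμ, zero_add]
    · have : Φ a0 n0 * Φ 1 1 - Φ 1 1 * Φ a0 n0 - 0 * Φ 0 1 = 0 := by ring
      rw [this]
      exact D.zero_mem
  · refine ⟨0, D.zero_mem, 0, D.zero_mem, fun h => absurd h hA0, fun h => absurd h hA1, ?_⟩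
    rw [zero_mul, zero_mul, sub_zero, sub_zero]
    exact D.mul_mem (hD.reg a0 n0 inv.hn0 hA0) h11

theorem curveU3 (hD : ZData D s0 Φ l) (h11 : Φ 1 1 ∈ D) (inv : Inv3 h s0 h' 0 1 a1 n1)
    (h0 : MvPolynomial.constantCoeff h' = 0)
    (h1 : MvPolynomial.constantCoeff (MvPolynomial.pderiv 0 h') ≠ 0) :
    Good3 D s0 Φ h' 0 1 a1 n1 (Φ a1 n1 * Φ 1 1) := by
  have o1 : OrdP (res1 h') 1 := by
    rw [← res0_sw]
    refine OrdP_curve (by rwa [cc_sw]) ?_
    rw [(pderiv_sw h').2, cc_sw]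
    exact h1
  have hA0 : ((1 : ℕ) : ℂ) + ((0 : ℕ) : ℂ) * s0 ≠ 0 := by simp
  by_cases hA1 : (n1 : ℂ) + a1 * s0 = 0
  · refine ⟨0, D.zero_mem, Φ 1 1, h11, fun h => absurd h hA0, fun _ μ hμ => ?_, ?_⟩
    · rw [← o1.unique hμ, zero_add]
    · have : Φ a1 n1 * Φ 1 1 - 0 * Φ 0 1 - Φ 1 1 * Φ a1 n1 = 0 := by ring
      rw [this]
      exact D.zero_mem
  · refine ⟨0, D.zero_mem, 0, D.zero_mem, fun h => absurd h hA0, fun h => absurd h hA1, ?_⟩
    rw [zero_mul, zero_mul, sub_zero, sub_zero]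
    exact D.mul_mem (hD.reg a1 n1 inv.hn1 hA1) h11

theorem OrdP.shift3 {p q : ℂ[X]} {m μ : ℕ} (h : p = X ^ m * q) (hq : OrdP q μ) :
    OrdP p (m + μ) := by
  rw [h]
  exact (OrdP_X_pow m).mul hq

theorem OrdP.unshift3 {p q : ℂ[X]} {m μ : ℕ} (h : p = X ^ m * q) (hp : OrdP p μ) :
    ∃ ν, μ = m + ν ∧ OrdP q ν := by
  have hq : q ≠ 0 := by
    rintro rfl
    rw [mul_zero] at h
    exact hp.2 (by rw [h, coeff_zero])
  obtain ⟨ν, hν⟩ := exists_OrdP q hq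
  exact ⟨ν, hp.unique (OrdP.shift3 h hν), hν⟩

/-- **The poles of the contribution of a point.** -/
theorem all3 (hF : FF h (fun _ : Option Empty => (1 : MP)) 1 ≠ 0)
    (hE : Evp (FF h (fun _ : Option Empty => (1 : MP)) 1) s0)
    (hD : ZData D s0 Φ l) (h11 : Φ 1 1 ∈ D) {h' : MP} {a0 n0 a1 n1 : ℕ} {Z : R}
    (hZ : RedZeta Φ l h' a0 n0 a1 n1 Z) :
    Inv3 h s0 h' a0 n0 a1 n1 → Good3 D s0 Φ h' a0 n0 a1 n1 Z := by
  classical
  induction hZ with
  | unit h' a0 n0 a1 n1 hh => exact fun inv => unit3 hD inv hh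
  | curveV h' a0 n0 h0 h1 => exact fun inv => curveV3 hD h11 inv h0 h1
  | curveU h' a1 n1 h0 h1 => exact fun inv => curveU3 hD h11 inv h0 h1
  | blowup h' a0 n0 a1 n1 m hm hc hI hhc hhI S h0S hS Zc ZI hz0 hcS hZI ih0 ihc ihI =>
    intro inv
    obtain ⟨G⟩ := inv.geom
    have hn0 := inv.hn0
    have hn1 := inv.hn1
    have hmult : IsMult (fun _ : Unit => h') m := ⟨⟨fun _ => hc 0, fun _ => hhc 0⟩,
      ⟨fun _ => hI, fun _ => hhI⟩⟩
    have hJ1 := inv.hJ1 m hmult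
    obtain ⟨z1, hz1S⟩ := Infinite.exists_notMem_finset S
    have hz1ne : z1 ≠ 0 := fun h => hz1S (h ▸ h0S)
    have hu1 := hS z1 hz1S
    have hhz : ∀ z, res0 (hc z) = (res0 (hc 0)).comp (X + C z) := fun z =>
      res0_chart h' (hc 0) (hc z) m z (hhc 0) (hhc z)
    have hcc : ∀ z, (res0 (hc 0)).eval z = MvPolynomial.constantCoeff (hc z) := by
      intro z
      rw [← coeff_res0, hhz z, coeff_zero_eq_eval_zero, eval_comp]
      simp
    have hPh : res0 (hc 0) ≠ 0 := by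
      intro h0
      apply hu1
      rw [← hcc, h0, eval_zero]
    have hdeg := coeff_resI h' (hc 0) hI m (hhc 0) hhI
    have hcomp : ∀ z, res0 (hc z) ≠ 0 ∧ (res0 (hc z)).natDegree ≤ m := by
      intro z
      have h1 : (X + C z : ℂ[X]).natDegree = 1 := natDegree_X_add_C z
      constructor
      · intro h
        have h2 := ord_comp (res0 (hc 0)) hPh z
        rw [hhz] at h
        rw [h, coeff_zero] at h2
        exact h2.2 rfl
      · rw [hhz, natDegree_comp, h1, mul_one]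
        exact hdeg.1
    have hPHI : res1 hI ≠ 0 := by
      intro h
      have h2 := hdeg.2.2 (m - (res0 (hc 0)).natDegree) (by omega)
      rw [h, coeff_zero] at h2
      have h3 : m - (m - (res0 (hc 0)).natDegree) = (res0 (hc 0)).natDegree := by
        have := hdeg.1
        omega
      rw [h3] at h2
      exact hPh (leadingCoeff_eq_zero.1 h2.symm)
    have hmc : ∀ z m', IsMult (fun _ : Unit => hc z) m' → m' ≤ m := by
      intro z m' hm1
      obtain ⟨g1, hg1⟩ := hm1.2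
      exact le_of_dvd (hcomp z).1 (hcomp z).2 (res0_of_chartI (hg1 ()))
    have hmI : ∀ m', IsMult (fun _ : Unit => hI) m' → m' ≤ m := by
      intro m' hm1
      obtain ⟨g1, hg1⟩ := hm1.1
      exact le_of_dvd hPHI hdeg.2.1 (res1_of_chart0 (hg1 ()))
    have hresI : res0 h' = X ^ m * res0 hI := res0_of_chartI hhI
    have hres0 : res1 h' = X ^ m * res1 (hc 0) := res1_of_chart0 (hhc 0)
    have han := fun hA => blow3 hF G hn0 hn1 m hm hc hI hhc hhI S h0S hS hJ1 inv.hJ2 inv.hJ2'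
      inv.hz0 inv.hz1 s0 hE hA
    have haz : a0 + a1 + m = 0 → n0 + n1 = 1 := by omega
    have hg1 : ∀ (z : ℂ) (j : Option Empty), MvPolynomial.aeval (chart z) ((1 : MP))
        = MvPolynomial.X 0 ^ 0 * (1 : MP) := fun z j => by rw [map_one, pow_zero, mul_one]
    have hgI : ∀ (j : Option Empty), MvPolynomial.aeval chartI ((1 : MP))
        = MvPolynomial.X 1 ^ 0 * (1 : MP) := fun j => by rw [map_one, pow_zero, mul_one]
    have inv0 : Inv3 h s0 (hc 0) (a0 + a1 + m) (n0 + n1) a1 n1 :=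
      { geom := ⟨G.child0 hn0 hn1 m 0 (hc 0) (fun _ => 1) (hhc 0) (hg1 0)⟩
        hn0 := by omega
        hn1 := hn1
        hz0 := haz
        hz1 := inv.hz1
        hJ1 := fun m' h1 => ⟨arith3 a0 n0 a1 n1 m _ hn0 hn1 (hmc 0 m' h1) hJ1.1
          hJ1.2, (Nat.mul_le_mul_left _ (hmc 0 m' h1)).trans hJ1.2⟩
        hJ2 := fun _ => arith1 a0 n0 a1 n1 m hn0 hn1 hm inv.hz0 inv.hJ2
        hJ2' := fun ha1 => arith2 a0 n0 a1 n1 m hn0 hn1 ha1 hJ1.2 inv.hJ2'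
        hH0 := by
          intro hA μ' hμ'
          obtain ⟨μ, μI, hμ, hμI, h2, h3, h4, h5⟩ := han hA
          rwa [← (hμ 0).unique hμ']
        hH1 := by
          intro hA1 μ' hμ'
          have h2 := inv.hH1 hA1 (m + μ') (OrdP.shift3 hres0 hμ')
          intro h3
          apply h2
          push_cast at h3 ⊢
          linear_combination h3 - hA1 }
    have invc : ∀ z, z ≠ 0 → Inv3 h s0 (hc z) (a0 + a1 + m) (n0 + n1) 0 1 := fun z hz0 =>
      { geom := ⟨G.child hn0 hn1 m 0 z hz0 (hc z) (fun _ => 1) (hhc z) (hg1 z)⟩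
        hn0 := by omega
        hn1 := le_rfl
        hz0 := haz
        hz1 := fun _ => rfl
        hJ1 := fun m' h1 => ⟨arith3 a0 n0 a1 n1 m _ hn0 hn1 (hmc z m' h1) hJ1.1
          hJ1.2, by simp⟩
        hJ2 := fun h => by rw [mul_zero, mul_one]; exact h
        hJ2' := fun h => absurd h (lt_irrefl 0)
        hH0 := by
          intro hA μ' hμ'
          obtain ⟨μ, μI, hμ, hμI, h2, h3, h4, h5⟩ := han hA
          have h6 := h4 z hz0
          rw [(hμ z).unique hμ'] at h6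
          rw [zero_add]
          push_cast
          exact h6
        hH1 := by
          intro hA1
          simp at hA1 }
    have invI : Inv3 h s0 hI a0 n0 (a0 + a1 + m) (n0 + n1) :=
      { geom := ⟨G.childI hn0 hn1 m 0 hI (fun _ => 1) hhI hgI⟩
        hn0 := hn0
        hn1 := by omega
        hz0 := inv.hz0
        hz1 := haz
        hJ1 := fun m' h1 => ⟨(Nat.mul_le_mul_left _ (hmI m' h1)).trans hJ1.1,
          arith3 a0 n0 a1 n1 m _ hn0 hn1 (hmI m' h1) hJ1.1 hJ1.2⟩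
        hJ2 := fun ha0 => by
          have := arith2 a1 n1 a0 n0 m hn1 hn0 ha0 hJ1.1 inv.hJ2
          rwa [add_comm a1 a0, add_comm n1 n0] at this
        hJ2' := fun _ => by
          have := arith1 a1 n1 a0 n0 m hn1 hn0 hm inv.hz1 inv.hJ2'
          rwa [add_comm a1 a0, add_comm n1 n0] at this
        hH0 := by
          intro hA0 μ' hμ'
          have h2 := inv.hH0 hA0 (m + μ') (OrdP.shift3 hresI hμ')
          intro h3
          apply h2
          push_cast at h3 ⊢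
          linear_combination h3 - hA0
        hH1 := by
          intro hA μ' hμ'
          obtain ⟨μ, μI, hμ, hμI, h2, h3, h4, h5⟩ := han hA
          rwa [← hμI.unique hμ'] }
    obtain ⟨c00, m00, c01, m01, h00, h01, h02⟩ := ih0 inv0
    obtain ⟨cI0, mI0, cI1, mI1, hI0, hI1, hI2⟩ := ihI invI
    set facE := Φ (a0 + a1 + m) (n0 + n1) with hfacE
    have hcc2 : ∀ z ∈ S.erase 0, ∃ κ' : R, κ' ∈ D ∧
        (((n0 + n1 : ℕ) : ℂ) + ((a0 + a1 + m : ℕ) : ℂ) * s0 = 0 → ∀ μ,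
          OrdP (res0 (hc z)) μ → κ' = Φ μ 1) ∧ Zc z - κ' * facE ∈ D := by
      intro z hzS
      rw [Finset.mem_erase] at hzS
      obtain ⟨κ', mκ, κ'', mκ', h2, h3, h4⟩ := ihc z hzS.2 hzS.1 (invc z hzS.1)
      refine ⟨κ', mκ, ?_, ?_⟩
      · intro hA μ hμ
        have h5 := h2 hA μ hμ
        rw [zero_add] at h5
        exact h5
      · have h5 := D.add_mem h4 mκ'
        rw [hD.one, mul_one, sub_add_cancel] at h5
        exact h5
    choose! κ' hκ0 hκ1 hκ2 using hcc2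
    set β : R := cI1 + c00 + ∑ z ∈ S.erase 0, κ' z + (l - (S.card : R)) with hβ
    have hβE : β * facE ∈ D := by
      by_cases hA : ((n0 + n1 : ℕ) : ℂ) + ((a0 + a1 + m : ℕ) : ℂ) * s0 = 0
      · obtain ⟨μ, μI, hμ, hμI, h2, h3, h4, u1, k1, u2, k2, h5, h6, h7, h8, h9, h10, h11', h12,
          h13⟩ := han hA
        have e2 := hI1 hA μI hμI
        have e3 := h00 hA (μ 0) (hμ 0)
        have e4 : ∀ z ∈ S.erase 0, κ' z = Φ (μ z) 1 := fun z hzS => hκ1 z hzS hA (μ z) (hμ z)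
        have e5 := h13 R Φ l hD.one
        have e6 : β = Φ u1 k1 + Φ u2 k2 + (l - 1) := by
          rw [hβ, Finset.sum_congr rfl e4, e2, e3, ← e5]
        have e7 := hD.beta u1 k1 u2 k2 (by omega) h7 h8 h9 h10 h11' h12
        have e8 : β * facE = (Φ u1 k1 + Φ u2 k2 + (l - 1)) * Φ (u1 + u2) (k1 + k2) := by
          rw [e6, hfacE, h5, h6]
        rw [e8]
        exact e7
      · exact D.mul_mem (D.add_mem (D.add_mem (D.add_mem mI1 m00) (Subring.sum_mem _ hκ0))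
          (D.sub_mem hD.ell (natCast_mem D _))) (hD.reg _ _ (by omega) hA)
    have hsum : ∑ z ∈ S.erase 0, (Zc z - κ' z * facE) ∈ D :=
      Subring.sum_mem _ fun z hzS => hκ2 z hzS
    rw [Finset.sum_sub_distrib, ← Finset.sum_mul] at hsum
    have hfin := D.add_mem (D.add_mem (D.add_mem h02 hI2) hsum) hβE
    have heq : ZI + ∑ z ∈ S, Zc z + (l - (S.card : R)) * facE
          - cI0 * Φ a0 n0 - c01 * Φ a1 n1
        = Zc 0 - c00 * facE - c01 * Φ a1 n1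
          + (ZI - cI0 * Φ a0 n0 - cI1 * facE)
          + (∑ z ∈ S.erase 0, Zc z - (∑ z ∈ S.erase 0, κ' z) * facE)
          + β * facE := by
      rw [← Finset.add_sum_erase S Zc h0S, hβ]
      ring
    rw [← heq] at hfin
    have hcor0 : ∃ c0 ∈ D, ((n0 : ℂ) + a0 * s0 = 0 → ∀ μ, OrdP (res0 h') μ →
          c0 = Φ (a1 + μ) n1) ∧ (cI0 - c0) * Φ a0 n0 ∈ D := by
      by_cases hcase : (n0 : ℂ) + a0 * s0 = 0 ∧ ∃ μ, OrdP (res0 h') μ
      · obtain ⟨hA0, μ, hμ⟩ := hcase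
        have hnz := inv.hH0 hA0 μ hμ
        obtain ⟨ν, rfl, hν⟩ := OrdP.unshift3 hresI hμ
        have h2 := hI0 hA0 ν hν
        have ha0 : 1 ≤ a0 := Nat.one_le_iff_ne_zero.2 (a_ne_zero inv.hz0 hA0)
        have hp := hD.pass a0 n0 (a1 + (m + ν)) n1 ha0 (by omega) hn0 hn1 hA0 hnz
        refine ⟨Φ (a1 + (m + ν)) n1, hD.reg _ _ hn1 ?_, ?_, ?_⟩
        · rw [mul_comm]
          exact hnz
        · intro _ μ' hμ'
          rw [← hμ.unique hμ']
        · rw [h2, show a0 + a1 + m + ν = a0 + (a1 + (m + ν)) by omega]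
          exact hp
      · refine ⟨cI0, mI0, ?_, ?_⟩
        · intro h1 μ hμ
          exact absurd ⟨h1, μ, hμ⟩ hcase
        · rw [sub_self, zero_mul]
          exact D.zero_mem
    have hcor1 : ∃ c1 ∈ D, ((n1 : ℂ) + a1 * s0 = 0 → ∀ μ, OrdP (res1 h') μ →
          c1 = Φ (a0 + μ) n0) ∧ (c01 - c1) * Φ a1 n1 ∈ D := by
      by_cases hcase : (n1 : ℂ) + a1 * s0 = 0 ∧ ∃ μ, OrdP (res1 h') μ
      · obtain ⟨hA1, μ, hμ⟩ := hcase
        have hnz := inv.hH1 hA1 μ hμ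
        obtain ⟨ν, rfl, hν⟩ := OrdP.unshift3 hres0 hμ
        have h2 := h01 hA1 ν hν
        have ha1 : 1 ≤ a1 := Nat.one_le_iff_ne_zero.2 (a_ne_zero inv.hz1 hA1)
        have hp := hD.pass a1 n1 (a0 + (m + ν)) n0 ha1 (by omega) hn1 hn0 hA1 hnz
        refine ⟨Φ (a0 + (m + ν)) n0, hD.reg _ _ hn0 ?_, ?_, ?_⟩
        · rw [mul_comm]
          exact hnz
        · intro _ μ' hμ'
          rw [← hμ.unique hμ']
        · rw [h2, show a0 + a1 + m + ν = a1 + (a0 + (m + ν)) by omega, add_comm n0 n1]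
          exact hp
      · refine ⟨c01, m01, ?_, ?_⟩
        · intro h1 μ hμ
          exact absurd ⟨h1, μ, hμ⟩ hcase
        · rw [sub_self, zero_mul]
          exact D.zero_mem
    obtain ⟨c0, mc0, hc0, hc0'⟩ := hcor0
    obtain ⟨c1, mc1, hc1', hc1''⟩ := hcor1
    refine ⟨c0, mc0, c1, mc1, hc0, hc1', ?_⟩
    have := D.add_mem (D.add_mem hfin hc0') hc1''
    convert this using 1
    ring

end Node

end Pool.Agent.J4H50.YO
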