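import Pool.Agent.J4H50.YO.CuE

set_option autoImplicit false
set_option linter.unusedSectionVars false
set_option linter.unusedVariables false
set_option linter.unusedSimpArgs false

/-! # The monodromy conjecture for germs with a given tangent cone -/

namespace Pool.Agent.J4H50.YO

open Pool.Agent.W574.SM Pool.Agent.N103 Pool.Agent.N103.V Pool.Agent.Y229
open Pool.Agent.J4H50.TT Pool.Agent.J4H50.TF
open Pool.Agent.Y229.PS (IsFormalBFunction)

/-- the properties of the zeta functions -/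
structure GoodY {σ : Type} (f : MvPowerSeries σ ℂ) (Z : ℕ → RatFunc ℂ) : Prop where
  ne : f ≠ 0
  zero : MvPowerSeries.constantCoeff f = 0
  re : ∀ c, 1 ≤ c → ∀ s : ℂ, WW Z c ∉ Reg s → s.re < 0
  nv : ∀ c, 1 ≤ c → ∀ s : ℂ, WW Z c ∉ Reg s → NV f s
  sg : ∀ c, 1 ≤ c → ∀ s : ℂ, WW Z c ∉ Reg s → Sing f

theorem WW_ofW (W : ℕ → RatFunc ℂ) {e : ℕ} (he : 1 ≤ e) : WW (ofW W) e = W e := by
  by_cases h1 : e = 1
  · subst h1
    rw [WW_one, ofW, if_pos rfl, mul_div_cancel₀ _ X1_ne]
    rw [div_eq_iff RatFunc.X_ne_zero]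
    ring
  · rw [WW_high _ (by omega), ofW, if_neg h1]

theorem tsZ_ofW (M : ℕ) (w w' : ℕ → (ℂ × ℕ →₀ ℂ)) : tsZ M w w' = ofW (tsW M w w') := by
  funext e
  rfl

theorem goodY_smooth {σ : Type} (f : MvPowerSeries σ ℂ) (h0 : MvPowerSeries.constantCoeff f = 0)
    (i : σ) (h1 : MvPowerSeries.coeff (Finsupp.single i 1) f ≠ 0) :
    GoodY f (fun e => if e = 1 then 1 / (RatFunc.X + 1) else 0) := by
  have key : ∀ c, 1 ≤ c → ∀ s : ℂ,
      WW (fun e => if e = 1 then 1 / (RatFunc.X + 1) else 0) c ∈ Reg s := by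
    intro c hc s
    by_cases h : c = 1
    · subst h
      rw [WW_one, if_pos rfl, mul_one_div_cancel X1_ne, sub_self, zero_div]
      exact (Reg s).zero_mem
    · rw [WW_high _ (by omega), if_neg h]
      exact (Reg s).zero_mem
  refine ⟨?_, h0, fun c hc s h => absurd (key c hc s) h, fun c hc s h => absurd (key c hc s) h,
    fun c hc s h => absurd (key c hc s) h⟩
  rintro rfl
  rw [map_zero] at h1
  exact h1 rfl

theorem goodY_curve (hCU : S_CU) (F : MvPolynomial (Fin 2) ℂ) (hF : F ≠ 0)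
    (h0 : MvPolynomial.constantCoeff F = 0)
    (Z : ℕ → RatFunc ℂ) (hZ : ∀ e, 1 ≤ e → RedZeta (tfac e) 1 F 0 1 0 1 (Z e)) :
    GoodY (F : MvPowerSeries (Fin 2) ℂ) Z := by
  refine ⟨?_, ?_, fun c hc s h => (hCU F hF h0 Z hZ c hc s h).1,
    fun c hc s h => (hCU F hF h0 Z hZ c hc s h).2.1,
    fun c hc s h => (hCU F hF h0 Z hZ c hc s h).2.2⟩
  · rw [Ne, MvPolynomial.coe_eq_zero_iff]
    exact hF
  · rw [← MvPowerSeries.coeff_zero_eq_constantCoeff_apply, MvPolynomial.coeff_coe,
      ← MvPolynomial.constantCoeff_eq, h0]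

theorem re_div {n d : ℕ} (hn : 0 < n) (hd : 0 < d) : (-((n : ℂ) / (d : ℂ))).re < 0 := by
  have h1 : (-((n : ℂ) / (d : ℂ))) = ((-((n : ℝ) / (d : ℝ)) : ℝ) : ℂ) := by
    push_cast
    rfl
  rw [h1, Complex.ofReal_re]
  have h2 : (0 : ℝ) < n := by exact_mod_cast hn
  have h3 : (0 : ℝ) < d := by exact_mod_cast hd
  have h4 := div_pos h2 h3
  linarith

theorem goodY_swh (hSW : S_SW) (hSZ : S_SZ) {σ : Type} [Fintype σ] [Nonempty σ]
    (G0 : MvPolynomial σ ℂ) (g : MvPowerSeries σ ℂ)
    (w : σ → ℕ) (D : ℕ) (hw : ∀ i, 0 < w i) (hD : 0 < D) (hG0 : G0.IsWeightedHomogeneous w D)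
    (hg : OrdF w (D + 1) g) (h0 : ∀ i, MvPolynomial.coeff (Finsupp.single i 1) G0 = 0)
    (h1 : ∀ i, MvPowerSeries.coeff (Finsupp.single i 1) g = 0)
    (hz : ∀ z : σ → ℂ, (∀ i, MvPolynomial.eval z (MvPolynomial.pderiv i G0) = 0) → z = 0) :
    GoodY ((G0 : MvPowerSeries σ ℂ) + g) (swZ w D) := by
  have h2 := hSW G0 g w D hw hD hG0 hg h0 h1 hz
  have hW : 0 < ∑ i, w i := Finset.sum_pos (fun i _ => hw i) Finset.univ_nonempty
  refine ⟨swhF_ne hG0 hg hz, swhF_zero hD hG0 hg, fun c hc s h => ?_, fun c hc s h => ?_,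
    fun c hc s h => h2.2⟩
  · rw [hSZ G0 w D c s hw hD hG0 h0 hz hc h]
    exact re_div hW hD
  · rw [hSZ G0 w D c s hw hD hG0 h0 hz hc h]
    exact h2.1

theorem sing_inl {σ τ : Type} [Finite σ] [Finite τ] {f : MvPowerSeries σ ℂ} (hf : Sing f) :
    Sing (MvPowerSeries.rename Sum.inl f : MvPowerSeries (σ ⊕ τ) ℂ) := by
  intro x hx
  by_cases h : x ∈ Set.range (Finsupp.mapDomain (Sum.inl : σ → σ ⊕ τ))
  · obtain ⟨y, rfl⟩ := h
    have h1 := MvPowerSeries.coeff_embDomain_rename (Function.Embedding.inl : σ ↪ σ ⊕ τ) f y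
    rw [Finsupp.embDomain_eq_mapDomain] at h1
    have h2 : (Finsupp.mapDomain (Sum.inl : σ → σ ⊕ τ) y).degree = y.degree := by
      induction y using Finsupp.induction_linear with
      | zero => simp
      | add f g hf hg => simp [Finsupp.mapDomain_add, hf, hg]
      | single a b => simp
    refine h1.trans (hf y ?_)
    rw [← h2]
    exact hx
  · exact MvPowerSeries.coeff_rename_eq_zero _ f h

theorem sing_inr {σ τ : Type} [Finite σ] [Finite τ] {f : MvPowerSeries τ ℂ} (hf : Sing f) :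
    Sing (MvPowerSeries.rename Sum.inr f : MvPowerSeries (σ ⊕ τ) ℂ) := by
  intro x hx
  by_cases h : x ∈ Set.range (Finsupp.mapDomain (Sum.inr : τ → σ ⊕ τ))
  · obtain ⟨y, rfl⟩ := h
    have h1 := MvPowerSeries.coeff_embDomain_rename (Function.Embedding.inr : τ ↪ σ ⊕ τ) f y
    rw [Finsupp.embDomain_eq_mapDomain] at h1
    have h2 : (Finsupp.mapDomain (Sum.inr : τ → σ ⊕ τ) y).degree = y.degree := by
      induction y using Finsupp.induction_linear with
      | zero => simp
      | add f g hf hg => simp [Finsupp.mapDomain_add, hf, hg]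
      | single a b => simp
    refine h1.trans (hf y ?_)
    rw [← h2]
    exact hx
  · exact MvPowerSeries.coeff_rename_eq_zero _ f h

theorem goodY_sum (hSU : S_SU) {σ τ : Type} [Finite σ] [Finite τ] {f : MvPowerSeries σ ℂ}
    {g : MvPowerSeries τ ℂ} {Z Z' : ℕ → RatFunc ℂ} (hF : GoodY f Z) (hG : GoodY g Z') {M : ℕ}
    {w w' : ℕ → (ℂ × ℕ →₀ ℂ)} (hw : ∀ c, 1 ≤ c → WW Z c = lap (w c))
    (hw' : ∀ c, 1 ≤ c → WW Z' c = lap (w' c)) :
    GoodY (MvPowerSeries.rename Sum.inl f + MvPowerSeries.rename Sum.inr g :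
      MvPowerSeries (σ ⊕ τ) ℂ) (tsZ M w w') := by
  have key : ∀ c, 1 ≤ c → ∀ s : ℂ, WW (tsZ M w w') c ∉ Reg s → s.re < 0 ∧
      NV (MvPowerSeries.rename Sum.inl f + MvPowerSeries.rename Sum.inr g :
        MvPowerSeries (σ ⊕ τ) ℂ) s ∧
      Sing (MvPowerSeries.rename Sum.inl f + MvPowerSeries.rename Sum.inr g :
        MvPowerSeries (σ ⊕ τ) ℂ) := by
    intro e he s hs
    rw [tsZ_ofW, WW_ofW _ he] at hs
    have h1 : ∃ c c', 1 ≤ c ∧ 1 ≤ c' ∧ ∃ p ∈ (w c).support, ∃ q ∈ (w' c').support,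
        s = -p.1 + -q.1 := by
      by_contra hne
      push Not at hne
      exact hs (tsW_mem fun c c' hc hc' p hp q hq => hne c c' hc hc' p hp q hq)
    obtain ⟨c, c', hc, hc', x, hx, y, hy, rfl⟩ := h1
    have hx1 : WW Z c ∉ Reg (-x.1) := by
      rw [hw c hc]
      exact lap_pole _ _ hx
    have hy1 : WW Z' c' ∉ Reg (-y.1) := by
      rw [hw' c' hc']
      exact lap_pole _ _ hy
    have hre : (-x.1 + -y.1).re < 0 := by
      rw [Complex.add_re]
      have := hF.re c hc _ hx1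
      have := hG.re c' hc' _ hy1
      linarith
    have hSf := hF.sg c hc _ hx1
    have hSg := hG.sg c' hc' _ hy1
    refine ⟨hre, hSU f g (-x.1) (-y.1) (fun m hm => ?_) hSf hSg (hF.nv c hc _ hx1)
      (hG.nv c' hc' _ hy1), fun z hz => ?_⟩
    · rw [hm, Complex.natCast_re] at hre
      exact absurd hre (not_lt.2 (Nat.cast_nonneg m))
    · rw [map_add, sing_inl hSf z hz, sing_inr hSg z hz, add_zero]
  refine ⟨sumF_ne hF.ne hF.zero, ?_, fun c hc s h => (key c hc s h).1,
    fun c hc s h => (key c hc s h).2.1, fun c hc s h => (key c hc s h).2.2⟩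
  rw [map_add, MvPowerSeries.constantCoeff_rename, MvPowerSeries.constantCoeff_rename, hF.zero,
    hG.zero, add_zero]

theorem weight_one {σ : Type} (m : σ →₀ ℕ) :
    Finsupp.weight (fun _ => 1 : σ → ℕ) m = m.degree := by
  have h : Finsupp.degree m = Finsupp.weight (1 : σ → ℕ) m :=
    DFunLike.congr_fun Finsupp.degree_eq_weight_one m
  exact h.symm

theorem hom_degree {σ : Type} {d : ℕ} {f0 : MvPolynomial σ ℂ} (hf0 : f0.IsHomogeneous d)
    {x : σ →₀ ℕ} (h : MvPolynomial.coeff x f0 ≠ 0) : x.degree = d := by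
  rw [← weight_one]
  exact hf0 h

theorem cone_sing {σ : Type} {d : ℕ} (hd : 2 ≤ d) {f0 : MvPolynomial σ ℂ}
    (hf0 : f0.IsHomogeneous d) {R : MvPowerSeries σ ℂ} (hR : OrdF (fun _ => 1) (d + 1) R) :
    Sing ((f0 : MvPowerSeries σ ℂ) + R) := by
  intro x hx
  have h1 : MvPolynomial.coeff x f0 = 0 := by
    by_contra h
    have := hom_degree hf0 h
    omega
  have h2 : MvPowerSeries.coeff x R = 0 := by
    by_contra h
    have := hR x h
    rw [weight_one] at this
    omega
  rw [map_add, MvPolynomial.coeff_coe, h1, h2, add_zero]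

theorem cone_ne {σ : Type} {d : ℕ} {f0 : MvPolynomial σ ℂ}
    (hf0 : f0.IsHomogeneous d) (hf00 : f0 ≠ 0) {R : MvPowerSeries σ ℂ}
    (hR : OrdF (fun _ => 1) (d + 1) R) : (f0 : MvPowerSeries σ ℂ) + R ≠ 0 := by
  intro h
  apply hf00
  ext x
  rw [MvPolynomial.coeff_zero]
  by_contra hx
  have h1 := congrArg (MvPowerSeries.coeff x) h
  rw [map_add, map_zero, MvPolynomial.coeff_coe] at h1
  have h2 : MvPowerSeries.coeff x R ≠ 0 := by
    intro h2
    rw [h2, add_zero] at h1
    exact hx h1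
  have h3 := hom_degree hf0 hx
  have h4 := hR x h2
  rw [weight_one, h3] at h4
  omega

theorem goodY_cone (hNE : S_NE) (hCN : S_CN) (hRG : S_RG) {τ ι : Type} [Fintype τ]
    [DecidableEq τ] [Fintype ι] (d : ℕ) (hd : 2 ≤ d)
    (f0 : MvPolynomial (Option τ) ℂ) (hf0 : f0.IsHomogeneous d) (hf00 : f0 ≠ 0)
    (R : MvPowerSeries (Option τ) ℂ) (hR : OrdF (fun _ => 1) (d + 1) R)
    (k : ι → ℕ) (hk : ∀ i, 1 ≤ k i) (hn : ∀ i, Fintype.card τ + 1 ≤ d + k i)
    (ξ : ι → Option τ → MvPowerSeries (Option τ) ℂ)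
    (J U : ι → MvPowerSeries (Option τ) ℂ) (hJu : ∀ i, IsUnit (J i)) (hU : ∀ i, IsUnit (U i))
    (hJ : ∀ i, (Matrix.of fun l m => MvPowerSeries.pderiv ℂ m (MvPowerSeries.X none * ξ i l)).det =
      MvPowerSeries.X none ^ Fintype.card τ * J i)
    (g : ι → MvPowerSeries τ ℂ) (Z : ι → ℕ → RatFunc ℂ) (hg : ∀ i, GoodY (g i) (Z i))
    (hf : ∀ i, MvPowerSeries.subst (fun l => MvPowerSeries.X none * ξ i l)
        ((f0 : MvPowerSeries (Option τ) ℂ) + R) =
      U i * (MvPowerSeries.X none ^ d *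
        (MvPowerSeries.rename some (g i) + MvPowerSeries.X none ^ k i)))
    (A : ℤ)
    (hA : NonExact f0 (-((Fintype.card τ + 1 : ℕ) : ℂ) / d) ∨
      (∃ i, NV (g i) (-((Fintype.card τ + 1 : ℕ) : ℂ) / d) ∧ Sing (g i)) ∨
      ∀ e, 1 ≤ e → coneW (Fintype.card τ + 1) d A k Z e ∈
        Reg (-((Fintype.card τ + 1 : ℕ) : ℂ) / d)) :
    GoodY ((f0 : MvPowerSeries (Option τ) ℂ) + R)
      (ofW (coneW (Fintype.card τ + 1) d A k Z)) := by
  classical
  set n := Fintype.card τ + 1 with hnd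
  have hdc : (d : ℂ) ≠ 0 := Nat.cast_ne_zero.2 (by omega)
  have key : ∀ c, 1 ≤ c → ∀ s : ℂ, WW (ofW (coneW n d A k Z)) c ∉ Reg s → s.re < 0 ∧
      NV ((f0 : MvPowerSeries (Option τ) ℂ) + R) s := by
    intro e he s hs
    rw [WW_ofW _ he] at hs
    rcases hRG n d A k Z e s (by omega) (by omega) hk he hs with h | ⟨i, c, hc, h⟩
    · have h2 : s = -((n : ℕ) : ℂ) / d := by
        rw [eq_div_iff hdc]
        linear_combination h
      have hre : s.re < 0 := by
        rw [h2, neg_div]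
        exact re_div (by omega) (by omega)
      constructor
      · exact hre
      · rcases hA with hA | ⟨i, hA, hA'⟩ | hA
        · rw [h2]
          have hcard : Fintype.card (Option τ) = n := Fintype.card_option
          have h3 := hNE d f0 R (by omega) hf0 hf00 hR (by rw [hcard]; exact hA)
          rw [hcard] at h3
          exact h3
        · rw [← h2] at hA
          have hks : (k i : ℂ) * s = (n : ℂ) + ((d + k i : ℕ) : ℂ) * s := by
            have h9 : ((d + k i : ℕ) : ℂ) = (d : ℂ) + (k i : ℂ) := Nat.cast_add d (k i)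
            rw [h9]
            linear_combination -h
          refine hCN ((f0 : MvPowerSeries (Option τ) ℂ) + R)
            (fun l => MvPowerSeries.X none * ξ i l) (J i) (U i) (g i) s s d (k i) (by omega) (hk i)
            hks ?_ ?_ ?_ (hJu i) (hU i) (hJ i) (hf i) hA' hA
          · intro m hm
            rw [hm, Complex.natCast_re] at hre
            exact absurd hre (not_lt.2 (Nat.cast_nonneg m))
          · intro j hj hcon
            rw [h] at hcon
            have h5 : ((k i * j : ℕ) : ℂ) = 0 := by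
              push_cast
              exact hcon.symm
            have h6 : k i * j = 0 := by exact_mod_cast h5
            have h7 := Nat.mul_pos (lt_of_lt_of_le Nat.zero_lt_one (hk i)) (by omega : 0 < j)
            omega
          · intro l
            rw [map_mul, MvPowerSeries.constantCoeff_X, zero_mul]
        · rw [h2] at hs
          exact absurd (hA e he) hs
    · have hkc : (k i : ℂ) ≠ 0 := Nat.cast_ne_zero.2 (by have := hk i; omega)
      obtain ⟨S, hS⟩ : ∃ S : ℂ, S = (((d + k i : ℕ) : ℂ) / k i) * s + (n : ℂ) / k i := ⟨_, rfl⟩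
      rw [← hS] at h
      have hSre := (hg i).re c hc _ h
      have hkS : (k i : ℂ) * S = (n : ℂ) + ((d + k i : ℕ) : ℂ) * s := by
        rw [hS]
        field_simp
        ring
      have hkr : (0 : ℝ) < k i := by exact_mod_cast (lt_of_lt_of_le Nat.zero_lt_one (hk i))
      have hdr : (0 : ℝ) < d := by exact_mod_cast (by omega : 0 < d)
      have hnr : (n : ℝ) ≤ d + k i := by exact_mod_cast (hn i)
      have hn0 : (0 : ℝ) < n := by exact_mod_cast (by omega : 0 < n)
      have hre1 : (k i : ℝ) * S.re = n + (d + k i) * s.re := by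
        have h3 := congrArg Complex.re hkS
        rw [Complex.mul_re, Complex.natCast_re, Complex.natCast_im, zero_mul, sub_zero,
          Complex.add_re, Complex.natCast_re, Complex.mul_re, Complex.natCast_re,
          Complex.natCast_im, zero_mul, sub_zero] at h3
        push_cast at h3
        exact h3
      have hsre : s.re < 0 := by
        by_contra hcon
        push Not at hcon
        have h4 : (0 : ℝ) ≤ (d + k i) * s.re := mul_nonneg (by linarith) hcon
        have h5 : (k i : ℝ) * S.re < 0 := mul_neg_of_pos_of_neg hkr hSre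
        linarith
      refine ⟨hsre, ?_⟩
      refine hCN ((f0 : MvPowerSeries (Option τ) ℂ) + R) (fun l => MvPowerSeries.X none * ξ i l)
        (J i) (U i) (g i) S s d (k i) (by omega) (hk i) hkS ?_ ?_ ?_ (hJu i) (hU i) (hJ i)
        (hf i) ((hg i).sg c hc _ h) ((hg i).nv c hc _ h)
      · intro m hm
        rw [hm, Complex.natCast_re] at hsre
        exact absurd hsre (not_lt.2 (Nat.cast_nonneg m))
      · intro j hj hcon
        have h3 := congrArg Complex.re hcon
        rw [Complex.add_re, Complex.natCast_re, Complex.mul_re, Complex.natCast_re,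
          Complex.natCast_im, zero_mul, sub_zero, Complex.mul_re, Complex.natCast_re,
          Complex.natCast_im, zero_mul, sub_zero, Complex.natCast_re] at h3
        have hj1 : (1 : ℝ) ≤ j := by exact_mod_cast hj
        -- `s = S - j`
        have h4 : (k i : ℝ) * S.re = (k i : ℝ) * (j + s.re) := by
          rw [hre1]
          linear_combination h3
        have h5 : S.re = j + s.re := mul_left_cancel₀ hkr.ne' h4
        have h6 : (d : ℝ) * s.re = (d : ℝ) * S.re - d * j := by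
          rw [h5]
          ring
        rw [h6] at h3
        have h7 : (d : ℝ) * S.re < 0 := mul_neg_of_pos_of_neg hdr hSre
        have h8 : (d + k i : ℝ) ≤ (d + k i) * j := le_mul_of_one_le_right (by linarith) hj1
        linarith
      · intro l
        rw [map_mul, MvPowerSeries.constantCoeff_X, zero_mul]
  refine ⟨cone_ne hf0 hf00 hR, ?_, fun c hc s h => (key c hc s h).1,
    fun c hc s h => (key c hc s h).2, fun c hc s h => cone_sing hd hf0 hR⟩
  have h1 := cone_sing hd hf0 hR 0 (by simp)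
  rwa [MvPowerSeries.coeff_zero_eq_constantCoeff_apply] at h1

/-- **The properties of the zeta functions of the class.** -/
theorem tcg_good (hCU : S_CU) (hSW : S_SW) (hSZ : S_SZ) (hSU : S_SU) (hNE : S_NE) (hCN : S_CN)
    (hRG : S_RG) (hRN : S_RN) (hCO : S_CO) {σ : Type} {f : MvPowerSeries σ ℂ}
    {Z : ℕ → RatFunc ℂ} (h : TCG σ f Z) : GoodY f Z := by
  induction h with
  | smooth f h0 i h1 => exact goodY_smooth f h0 i h1
  | curve F hF h0 Z hZ => exact goodY_curve hCU F hF h0 Z hZ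
  | swh G0 g w D hw hD hG0 hg h0 h1 hz => exact goodY_swh hSW hSZ G0 g w D hw hD hG0 hg h0 h1 hz
  | sum f g Z Z' _ _ M hM hMZ w w' hw hw' ihF ihG => exact goodY_sum hSU ihF ihG hw hw'
  | cone d hd f0 hf0 hf00 R hR p hp hsing k hk hn ξ hξ J U hJu hU hJ g Z hg hf A hA ih =>
    exact goodY_cone hNE hCN hRG d hd f0 hf0 hf00 R hR k hk hn ξ J U hJu hU hJ g Z ih hf A hA
  | ren ε f Z _ ih =>
    refine ⟨?_, ?_, ih.re, fun c hc s h => (hRN ε f s).1 (ih.nv c hc s h),
      fun c hc s h => (hRN ε f s).2 (ih.sg c hc s h)⟩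
    · intro h
      apply ih.ne
      exact MvPowerSeries.rename_injective (R := ℂ) ε.toEmbedding (by rw [map_zero]; exact h)
    · rw [MvPowerSeries.constantCoeff_rename, ih.zero]
  | coord f f' Z _ φ u hφ hu h ih =>
    have hce : ∀ n, CE f' f n := by
      intro n
      exact ⟨φ, u, hφ, hu, fun m _ => by rw [h]⟩
    exact ⟨coord_ne hce ih.ne, coord_zero hce ih.zero, ih.re,
      fun c hc s h' => (hCO f f' φ u s hφ hu h).1 (ih.nv c hc s h'),
      fun c hc s h' => (hCO f f' φ u s hφ hu h).2 (ih.sg c hc s h')⟩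

/-- **The local theorem.** -/
theorem tcg_local (hNFE : S_NFE) (hCU : S_CU) (hSW : S_SW) (hSZ : S_SZ) (hSU : S_SU)
    (hNE : S_NE) (hCN : S_CN) (hRG : S_RG) (hRN : S_RN) (hCO : S_CO) {N : ℕ}
    (f : MvPowerSeries (Fin N) ℂ) (Z : ℕ → RatFunc ℂ)
    (hZ : TCG (Fin N) f Z) (b : Polynomial ℂ) (hb : IsFormalBFunction f b) (e : ℕ) (he : 1 ≤ e)
    (s : ℂ) (hs : (Z e).denom.eval s = 0) : b.eval s = 0 := by
  by_contra hne
  have hG := tcg_good hCU hSW hSZ hSU hNE hCN hRG hRN hCO hZ
  have hE := FEv_of_formal hG.ne hb hne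
  have hW : WW Z e ∈ Reg s := by
    by_contra h
    exact hNFE f s (hG.sg e he s h) (hG.nv e he s h) hE
  refine Reg_denom s _ ?_ hs
  by_cases h1 : e = 1
  · subst h1
    have hs1 : s ≠ -1 := by
      rintro rfl
      exact hne (formal_root hG.ne hG.zero hb)
    refine of_X1 hs1 ?_
    rw [WW_one] at hW
    have h2 : (RatFunc.X + 1) * Z 1 = 1 + RatFunc.X * (((RatFunc.X + 1) * Z 1 - 1) / RatFunc.X) := by
      rw [mul_div_cancel₀ _ RatFunc.X_ne_zero]
      ring
    rw [h2]
    exact (Reg s).add_mem (Reg s).one_mem ((Reg s).mul_mem (X_mem s) hW)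
  · rwa [WW_high Z (by omega)] at hW

end Pool.Agent.J4H50.YO
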